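import Mathlib

/-!
# Quantum machines that read their input in superposition, and the explicit function

Definitions only.
-/

open Matrix

namespace Pool.Agent.W977.CQ

/-- Quantum machines whose input consists of `n` words (elements of `A`), with a memory with `D`
basis states (`log₂ D` qubits) and `T` steps, and with access to the input in superposition. In
step `t` the basis state `s` of the memory reads the word at the position `pos t s` (nothing, if
this is `none`), and an arbitrary quantum operation is applied: its Kraus operator of outcome `ν`
maps the basis state `s` to the vector with the components `K t ν a r s`, where `a` is the word read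
by `s`. The positions read by different basis states are different in general, so that the memory
can read many words in superposition. At the end the memory is measured in the standard basis; the
outcomes in `yes` mean that the machine accepts, those in `no` that it rejects, and all others are
discarded (postselection). -/
structure Machine (n : ℕ) (A : Type) (D T : ℕ) where
  /-- number of outcomes (Kraus operators) in each step -/
  M : ℕ
  /-- position of the word read by a basis state of the memory in a step -/
  pos : Fin T → Fin D → Option (Fin n)
  /-- entry of a Kraus operator, given the step, the outcome and the word read -/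
  K : Fin T → Fin M → Option A → Matrix (Fin D) (Fin D) ℂ
  /-- initial basis state -/
  init : Fin D
  /-- accepting basis states -/
  yes : Finset (Fin D)
  /-- rejecting basis states -/
  no : Finset (Fin D)

namespace Machine

variable {n : ℕ} {A : Type} {D T : ℕ} (Q : Machine n A D T)

/-- The Kraus operator of outcome `ν` in step `t` on input `x`: the column of the basis state `s`
depends on the word read by `s`. -/
def kr (x : Fin n → A) (t : Fin T) (ν : Fin Q.M) : Matrix (Fin D) (Fin D) ℂ :=
  Matrix.of fun r s => Q.K t ν ((Q.pos t s).map x) r s

/-- Every step is a (trace preserving) quantum operation, on every input, and no outcome is both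
accepting and rejecting. -/
def Valid : Prop := (∀ (x : Fin n → A) (t : Fin T), ∑ ν, (Q.kr x t ν)ᴴ * Q.kr x t ν = 1) ∧
  Disjoint Q.yes Q.no

/-- The state (density matrix) of the memory after `t` steps. -/
noncomputable def state (x : Fin n → A) : ℕ → Matrix (Fin D) (Fin D) ℂ
  | 0 => Matrix.single Q.init Q.init 1
  | t + 1 => if h : t < T then ∑ ν, Q.kr x ⟨t, h⟩ ν * state x t * (Q.kr x ⟨t, h⟩ ν)ᴴ
      else state x t

/-- The probability that the outcome of the final measurement is in `B`. -/
noncomputable def prob (B : Finset (Fin D)) (x : Fin n → A) : ℝ :=
  ∑ a ∈ B, (Q.state x T a a).re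

/-- The machine decides the predicate `f` with postselection: on every input `x` the outcome is not
discarded with probability at least `2 ^ (-S)`, and conditioned on this event the answer is correct
with probability at least `1/2 + δ`. (If `no` is the complement of `yes`, nothing is discarded.) -/
def Computes (S : ℕ) (δ : ℝ) (f : (Fin n → A) → Prop) : Prop :=
  ∀ x, (1 / 2) ^ S ≤ Q.prob Q.yes x + Q.prob Q.no x ∧
    (f x → (1 / 2 + δ) * (Q.prob Q.yes x + Q.prob Q.no x) ≤ Q.prob Q.yes x) ∧
    (¬ f x → (1 / 2 + δ) * (Q.prob Q.yes x + Q.prob Q.no x) ≤ Q.prob Q.no x)

end Machine

/-- The decision problem: given numbers `p`, `r`, `k` and a list `l = [l₀, l₁, ...]` of numbers, with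
`r` and `k` at most the length of `l`, is `∑_{j < k} (∑_i i ^ j l_i) ^ r` divisible by `p`? -/
def PowerSum (q : ℕ × ℕ × ℕ × List ℕ) : Prop :=
  q.2.1 ≤ q.2.2.2.length ∧ q.2.2.1 ≤ q.2.2.2.length ∧
    q.1 ∣ ∑ j ∈ Finset.range q.2.2.1,
      (∑ i ∈ Finset.range q.2.2.2.length, i ^ j * q.2.2.2.getD i 0) ^ q.2.1

end Pool.Agent.W977.CQ
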