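import Pool.Agent.W977.CQ.Core

/-!
# The lower bound in asymptotic form
-/

open Finset Real

namespace Pool.Agent.W977.CQ

lemma two_pow_gt (r : ℕ) (hr : 7 ≤ r) : 56 * (r + 1) < 5 * 2 ^ r := by
  induction r, hr using Nat.le_induction with
  | base => norm_num
  | succ r hr ih => rw [pow_succ]; omega

lemma contra {n p S D r s₀ : ℕ} {ε K w : ℝ} (hε : 0 < ε) (hK : -Real.log ε ≤ K) (hK0 : 0 ≤ K)
    (hn : 1 ≤ n) (hp : 2 ≤ p) (hlog : Real.log p ≤ n) (hD : D ≤ 2 ^ S)
    (hs : (n : ℝ) / 2 ≤ s₀) (hw : w ^ 2 * (n + S) = n * Real.log p) (hr7 : 7 ≤ r)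
    (hr : (2 : ℝ) ^ r ≤ w) (hKw : 8 * K ≤ w)
    (h : ε * (1 / 2) ^ S / p ≤
      D * (((D : ℝ) ^ 2 * 3 ^ n) ^ r * ((((r - 1 : ℕ) : ℝ) / p) ^ s₀) ^ ((1 : ℝ) / 2 ^ r))) :
    False := by
  have hp0 : (0 : ℝ) < p := by exact_mod_cast (by omega : 0 < p)
  have hn0 : (1 : ℝ) ≤ n := by exact_mod_cast hn
  have hS0 : (0 : ℝ) ≤ S := Nat.cast_nonneg S
  have hlp : 0 < Real.log p := Real.log_pos (by exact_mod_cast hp)
  have hw0 : 0 < w := lt_of_lt_of_le (by positivity) hr
  have hLpos : 0 < ε * (1 / 2) ^ S / (p : ℝ) := by positivity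
  have hRpos := lt_of_lt_of_le hLpos h
  have hDne : D ≠ 0 := by
    rintro rfl
    simp at hRpos
  have hD0 : (0 : ℝ) < D := by exact_mod_cast Nat.pos_of_ne_zero hDne
  have hr1 : (0 : ℝ) < ((r - 1 : ℕ) : ℝ) := by exact_mod_cast (by omega : 0 < r - 1)
  have hlogD : Real.log D ≤ S * Real.log 2 := by
    rw [← Real.log_pow]
    exact Real.log_le_log hD0 (by exact_mod_cast hD)
  have hlogD0 : 0 ≤ Real.log D := Real.log_nonneg (by exact_mod_cast Nat.pos_of_ne_zero hDne)
  have hl2 : Real.log 2 ≤ 0.7 := by have := Real.log_two_lt_d9; linarith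
  have hl2' : 0 < Real.log 2 := Real.log_pos (by norm_num)
  have hl3 : Real.log 3 ≤ 1.4 := by
    have h4 : Real.log 3 ≤ Real.log (2 ^ 2) := Real.log_le_log (by norm_num) (by norm_num)
    rw [Real.log_pow] at h4
    push_cast at h4
    linarith
  have hlogr : Real.log ((r - 1 : ℕ) : ℝ) ≤ Real.log p / 2 := by
    have h1 : (((r - 1 : ℕ) : ℝ)) ^ 2 ≤ p := by
      have h2 : (((r - 1 : ℕ) : ℝ)) ≤ w := by
        refine le_trans ?_ hr
        have h3 : r - 1 ≤ 2 ^ r := (Nat.sub_le _ _).trans Nat.lt_two_pow_self.le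
        exact_mod_cast h3
      have h4 : w ^ 2 ≤ Real.log p := by
        have h5 : w ^ 2 * (n + S) ≤ Real.log p * (n + S) := by
          rw [hw]
          nlinarith [mul_nonneg hlp.le hS0]
        exact le_of_mul_le_mul_right h5 (by linarith)
      have h6 : Real.log p ≤ p := (Real.log_le_sub_one_of_pos hp0).trans (by linarith)
      have h7 : (((r - 1 : ℕ) : ℝ)) ^ 2 ≤ w ^ 2 := pow_le_pow_left₀ hr1.le h2 2
      linarith
    have h2 := Real.log_le_log (by positivity) h1
    rw [Real.log_pow] at h2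
    push_cast at h2
    linarith
  have hlog' := Real.log_le_log hLpos h
  rw [Real.log_div (by positivity) hp0.ne', Real.log_mul (by positivity) (by positivity),
    Real.log_pow, one_div, Real.log_inv, Real.log_mul (by positivity) (by positivity),
    Real.log_mul (by positivity) (by positivity), Real.log_pow,
    Real.log_mul (by positivity) (by positivity), Real.log_pow, Real.log_pow,
    Real.log_rpow (by positivity), Real.log_pow, Real.log_div hr1.ne' hp0.ne'] at hlog'
  set L := Real.log ((r - 1 : ℕ) : ℝ) with hL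
  have h2r : (0 : ℝ) < 2 ^ r := by positivity
  have hr0 : (0 : ℝ) ≤ r := Nat.cast_nonneg r
  have hmain : w * (n + S) / 4 ≤ 1 / 2 ^ r * (s₀ * (Real.log p - L)) := by
    have h1 : w * (n + S) / 4 = (1 / w) * ((n / 2) * (Real.log p / 2)) := by
      rw [show (n : ℝ) / 2 * (Real.log p / 2) = w ^ 2 * (n + S) / 4 by rw [hw]; ring]
      field_simp
    rw [h1]
    refine mul_le_mul (one_div_le_one_div_of_le h2r hr) ?_ (by positivity) (by positivity)
    exact mul_le_mul hs (by linarith) (by positivity) (Nat.cast_nonneg _)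
  have hA : (r : ℝ) * (2 * Real.log D + n * Real.log 3) ≤ r * (1.4 * (n + S)) := by
    refine mul_le_mul_of_nonneg_left ?_ hr0
    have h1 : S * Real.log 2 ≤ S * 0.7 := mul_le_mul_of_nonneg_left hl2 hS0
    have h2 : n * Real.log 3 ≤ n * 1.4 := mul_le_mul_of_nonneg_left hl3 (by linarith)
    linarith
  have hC : S * Real.log 2 ≤ 0.7 * S := by
    have h1 : S * Real.log 2 ≤ S * 0.7 := mul_le_mul_of_nonneg_left hl2 hS0
    linarith
  have hB : Real.log D ≤ 0.7 * S := hlogD.trans hC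
  have h5 : (5 : ℝ) * 2 ^ r > 56 * (r + 1) := by exact_mod_cast two_pow_gt r hr7
  have h6 : w * (n + S) / 4 ≤ (K + 1.4 * (1 + r)) * (n + S) := by
    push_cast at hlog'
    have h7 : K * 1 ≤ K * (n + S) := mul_le_mul_of_nonneg_left (by linarith) hK0
    have h8 : 1 / 2 ^ r * (s₀ * (L - Real.log p)) = -(1 / 2 ^ r * (s₀ * (Real.log p - L))) := by
      ring
    rw [h8] at hlog'
    have h9 : (K + 1.4 * (1 + r)) * (n + S) = K * (n + S) + 1.4 * n + 1.4 * S +
        r * (1.4 * (n + S)) := by ring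
    rw [h9]
    linarith
  have h7 : w / 4 ≤ K + 1.4 * (1 + r) := by
    have h8 : w / 4 * (n + S) ≤ (K + 1.4 * (1 + r)) * (n + S) := by linarith
    exact le_of_mul_le_mul_right h8 (by linarith)
  linarith

theorem lower_bound {δ : ℝ} (hδ : 0 < δ) : ∃ c : ℝ, 0 < c ∧ ∀ (n p S : ℕ) [Fact p.Prime],
    1 ≤ n → n ≤ p → Real.log p ≤ n → ∃ r k : ℕ, r ≤ n ∧ k ≤ n ∧ 0 < r ∧
      ∀ (D T : ℕ) (Q : Machine n (ZMod p) D T), Q.Valid → D ≤ 2 ^ S →
        Q.Computes S δ (fun x => fn r k x = 0) →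
        c * n * Real.log (n * Real.log p / (n + S)) ≤ T := by
  obtain ⟨K, hK, hK0⟩ : ∃ K : ℝ, -Real.log (2 * δ) ≤ K ∧ 0 ≤ K :=
    ⟨max (-Real.log (2 * δ)) 0, le_max_left _ _, le_max_right _ _⟩
  set W : ℝ := max 128 (8 * K) with hW
  have hW1 : (128 : ℝ) ≤ W := le_max_left _ _
  have hW2 : 8 * K ≤ W := le_max_right _ _
  have hlW : 0 < Real.log W := Real.log_pos (by linarith)
  refine ⟨min (1 / (4 * Real.log W)) (1 / 32), by positivity, ?_⟩
  intro n p S hpf hn hnp hlog
  have hp := hpf.out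
  have hp0 : (0 : ℝ) < p := by exact_mod_cast hp.pos
  have hn0 : (1 : ℝ) ≤ n := by exact_mod_cast hn
  have hS0 : (0 : ℝ) ≤ S := Nat.cast_nonneg S
  have hlp : 0 < Real.log p := Real.log_pos (by exact_mod_cast hp.one_lt)
  set ρ : ℝ := n * Real.log p / (n + S) with hρ
  have hρ0 : 0 < ρ := by positivity
  by_cases hc : ρ < W ^ 2
  · refine ⟨1, 1, hn, hn, one_pos, ?_⟩
    intro D T Q hQ hD hcomp
    have hT : (n : ℝ) / 2 ≤ T := by
      by_contra hT
      have hT' : T ≤ 1 * ((n - 1) / 2) := by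
        have h1 : (T : ℝ) < n / 2 := not_le.1 hT
        have h2 : (2 * T : ℝ) < n := by linarith
        have h3 : 2 * T < n := by exact_mod_cast h2
        omega
      have h1 := finite_bound Q hQ hδ (r := 1) (d := (n - 1) / 2) (s₀ := 1) hnp one_pos hp.one_lt
        (by omega) hT' hcomp
      have h2 : 0 < 2 * δ * (1 / 2) ^ S / (p : ℝ) := by positivity
      have h3 : ((((1 - 1 : ℕ) : ℝ) / (p : ℝ)) ^ 1) ^ ((1 : ℝ) / 2 ^ 1) = 0 := by norm_num
      rw [h3, mul_zero, mul_zero] at h1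
      linarith
    have h1 : Real.log ρ ≤ 2 * Real.log W := by
      have := Real.log_le_log hρ0 hc.le
      rw [Real.log_pow] at this
      exact_mod_cast this
    have h2 : min (1 / (4 * Real.log W)) (1 / 32) ≤ 1 / (4 * Real.log W) := min_le_left _ _
    have h3 : 0 < min (1 / (4 * Real.log W)) (1 / 32 : ℝ) := by positivity
    calc min (1 / (4 * Real.log W)) (1 / 32) * n * Real.log ρ
        ≤ min (1 / (4 * Real.log W)) (1 / 32) * n * (2 * Real.log W) :=
          mul_le_mul_of_nonneg_left h1 (by positivity)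
      _ ≤ 1 / (4 * Real.log W) * n * (2 * Real.log W) := by gcongr
      _ = n / 2 := by field_simp; ring
      _ ≤ T := hT
  · push Not at hc
    set w : ℝ := Real.sqrt ρ with hw
    have hw2 : w ^ 2 = ρ := Real.sq_sqrt hρ0.le
    have hWw : W ≤ w := Real.le_sqrt_of_sq_le hc
    obtain ⟨r, hr1, hr2⟩ : ∃ r : ℕ, (2 : ℝ) ^ r ≤ w ∧ w < 2 ^ (r + 1) := by
      obtain ⟨r, h1, h2⟩ := exists_nat_pow_near (show (1 : ℝ) ≤ w by linarith)
        (show (1 : ℝ) < 2 by norm_num)
      exact ⟨r, h1, h2⟩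
    have hr7 : 7 ≤ r := by
      by_contra h
      have h1 : r + 1 ≤ 7 := by omega
      have h2 : (2 : ℝ) ^ (r + 1) ≤ 2 ^ 7 := pow_le_pow_right₀ (by norm_num) h1
      norm_num at h2
      linarith
    have hρp : ρ ≤ Real.log p := by
      rw [hρ, div_le_iff₀ (by linarith)]
      nlinarith [mul_nonneg hlp.le hS0]
    have hwρ : w ≤ ρ := by rw [← hw2]; nlinarith
    have hrw : (r : ℝ) < w := by
      refine lt_of_lt_of_le ?_ hr1
      exact_mod_cast Nat.lt_two_pow_self
    have hrn : r ≤ n := by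
      have : (r : ℝ) ≤ n := by linarith
      exact_mod_cast this
    have hrp : r < p := by
      have h1 : Real.log p < p := by
        have := Real.log_le_sub_one_of_pos hp0
        linarith
      have : (r : ℝ) < p := by linarith
      exact_mod_cast this
    have hn128 : 128 ≤ n := by
      have : (128 : ℝ) ≤ n := by linarith
      exact_mod_cast this
    refine ⟨r, n - 2 * (n / 4), hrn, by omega, by omega, ?_⟩
    intro D T Q hQ hD hcomp
    have hT : ((r * (n / 4) : ℕ) : ℝ) ≤ T := by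
      by_contra hT
      have hT' : T ≤ r * (n / 4) := by
        have h1 : (T : ℝ) < ((r * (n / 4) : ℕ) : ℝ) := not_le.1 hT
        exact_mod_cast h1.le
      have h1 := finite_bound Q hQ hδ (r := r) (d := n / 4) (s₀ := n - 2 * (n / 4)) hnp (by omega)
        hrp (by omega) hT' hcomp
      refine contra (n := n) (K := K) (w := w) (ε := 2 * δ) (by positivity) hK hK0 hn hp.two_le hlog hD ?_ ?_ hr7 hr1
        (hW2.trans hWw) h1
      · have h2 : n ≤ 2 * (n - 2 * (n / 4)) := by omega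
        have h3 : (n : ℝ) ≤ 2 * ((n - 2 * (n / 4) : ℕ) : ℝ) := by exact_mod_cast h2
        linarith
      · rw [hw2, hρ]
        field_simp
    have h1 : (n : ℝ) / 8 ≤ ((n / 4 : ℕ) : ℝ) := by
      have h2 : n ≤ 8 * (n / 4) := by omega
      have h3 : (n : ℝ) ≤ 8 * ((n / 4 : ℕ) : ℝ) := by exact_mod_cast h2
      linarith
    have h2 : Real.log ρ ≤ 4 * r := by
      rw [← hw2, Real.log_pow]
      have h3 : Real.log w ≤ (r + 1 : ℕ) * Real.log 2 := by
        rw [← Real.log_pow]
        exact Real.log_le_log (by linarith) hr2.le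
      have h4 : Real.log 2 ≤ 1 := by have := Real.log_two_lt_d9; linarith
      have h5 : (1 : ℝ) ≤ r := by exact_mod_cast (by omega : 1 ≤ r)
      have h6 : ((r + 1 : ℕ) : ℝ) * Real.log 2 ≤ (r + 1 : ℕ) * 1 :=
        mul_le_mul_of_nonneg_left h4 (by positivity)
      push_cast at h3 h6 ⊢
      linarith
    have h3 : 0 ≤ Real.log ρ := Real.log_nonneg (by linarith)
    calc min (1 / (4 * Real.log W)) (1 / 32) * n * Real.log ρ
        ≤ 1 / 32 * n * Real.log ρ := by
          gcongr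
          exact min_le_right _ _
      _ ≤ 1 / 32 * n * (4 * r) := by gcongr
      _ = r * (n / 8) := by ring
      _ ≤ r * ((n / 4 : ℕ) : ℝ) := by gcongr
      _ = ((r * (n / 4) : ℕ) : ℝ) := by push_cast; ring
      _ ≤ T := hT

/-- The function in terms of the decision problem. -/
lemma powerSum_iff {n p : ℕ} [Fact p.Prime] {r k : ℕ} (hr : r ≤ n) (hk : k ≤ n)
    (x : Fin n → ZMod p) :
    PowerSum (p, r, k, List.ofFn fun i => (x i).val) ↔ fn r k x = 0 := by
  have hlen : (List.ofFn fun i => (x i).val).length = n := List.length_ofFn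
  simp only [PowerSum, hlen, hr, hk, true_and]
  rw [← CharP.cast_eq_zero_iff (ZMod p) p]
  have h1 : ∀ j : ℕ, ((∑ i ∈ range n, i ^ j * (List.ofFn fun i => (x i).val).getD i 0 : ℕ) : ZMod p)
      = lin j x := by
    intro j
    rw [Finset.sum_range, lin]
    push_cast
    refine sum_congr rfl fun i _ => ?_
    congr 1
    rw [List.getD_eq_getElem _ _ (by rw [hlen]; exact i.2)]
    simp
  have h2 : ((∑ j ∈ range k, (∑ i ∈ range n, i ^ j * (List.ofFn fun i => (x i).val).getD i 0) ^ r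
      : ℕ) : ZMod p) = fn r k x := by
    rw [Finset.sum_range, fn, Nat.cast_sum]
    refine sum_congr rfl fun j _ => ?_
    rw [Nat.cast_pow, h1]
  rw [h2]

end Pool.Agent.W977.CQ
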