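import Pool.Agent.W977.CQ.Mach

/-!
# The machines are uncorrelated with the explicit function
-/

open Finset Matrix
open scoped BigOperators ComplexConjugate

namespace Pool.Agent.W977.CQ

set_option linter.unusedSectionVars false

variable {n p : ℕ} [Fact p.Prime] {D T : ℕ} (Q : Machine n (ZMod p) D T)

lemma restr_restr {Y Z : Finset (Fin n)} (h : Z ⊆ Y) (y : Inp n p) :
    restr Y (restr Z y) = restr Z y := by
  funext i
  simp only [restr_apply]
  by_cases hi : i ∈ Z
  · simp [hi, h hi]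
  · simp [hi]

/-- Products of few blocks and functions which do not look at large sets. -/
lemma corr_blk (hQ : Q.Valid) (χ : Inp n p → ℂ) {r d s₀ : ℕ} {B : ℝ} (hd : 2 * d + s₀ ≤ n)
    (hB : ∀ l : List ((Inp n p → ℂ) × Finset (Fin n)), l.length = r →
      (∀ q ∈ l, Blind q ∧ q.2.card = s₀) →
      ‖𝔼 x : Inp n p, χ x * (l.map fun q => q.1 x).prod‖ ≤ B) (m : ℕ) :
    ∀ (l : List ((Inp n p → ℂ) × Finset (Fin n))) (a b : Fin D × Fin D), m + l.length = r →
      (∀ q ∈ l, Blind q ∧ q.2.card = s₀) →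
      ‖𝔼 x : Inp n p, χ x * (blk Q ∅ x 0 (m * d) a b * (l.map fun q => q.1 x).prod)‖ ≤
        ((D : ℝ) ^ 2 * 3 ^ n) ^ m * B := by
  have hB0 : 0 ≤ B ∨ ∀ l : List ((Inp n p → ℂ) × Finset (Fin n)), l.length = r →
      ¬ (∀ q ∈ l, Blind q ∧ q.2.card = s₀) := by
    by_cases h : ∃ l : List ((Inp n p → ℂ) × Finset (Fin n)), l.length = r ∧
      (∀ q ∈ l, Blind q ∧ q.2.card = s₀)
    · obtain ⟨l, h1, h2⟩ := h
      exact Or.inl ((norm_nonneg _).trans (hB l h1 h2))
    · push Not at h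
      right
      intro l h1 h2
      obtain ⟨q, hq, h3⟩ := h l h1
      exact h3 (h2 q hq).1 (h2 q hq).2
  have hBn : 0 ≤ B := by
    rcases hB0 with h | h
    · exact h
    · exfalso
      obtain ⟨Z, _, hZ⟩ := Finset.exists_subset_card_eq (s := (univ : Finset (Fin n))) (n := s₀)
        (by rw [card_univ, Fintype.card_fin]; omega)
      refine h (List.replicate r (fun _ => 0, Z)) (by simp) ?_
      intro q hq
      rw [List.mem_replicate] at hq
      rw [hq.2]
      exact ⟨⟨fun x => by simp, fun x h => rfl⟩, hZ⟩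
  induction m with
  | zero =>
    intro l a b hl hq
    simp only [zero_mul, blk, pow_zero, one_mul]
    rw [zero_add] at hl
    by_cases hab : a = b
    · subst hab
      simp only [Matrix.one_apply_eq, one_mul]
      exact hB l hl hq
    · simp only [Matrix.one_apply_ne hab, zero_mul, mul_zero]
      simpa using hBn
  | succ m ih =>
    intro l a b hl hq
    have key : ∀ (c : Fin D × Fin D) (Y : Finset (Fin n)),
        ‖𝔼 x : Inp n p, χ x * ((wt s₀ Y : ℂ) * blk Q Y x (m * d) d a c *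
          blk Q ∅ x 0 (m * d) c b * (l.map fun q => q.1 x).prod)‖ ≤
        |wt s₀ Y| * (((D : ℝ) ^ 2 * 3 ^ n) ^ m * B) := by
      intro c Y
      by_cases hY : Y.card < s₀
      · rw [wt_eq_zero hY]
        simp
      · push Not at hY
        obtain ⟨Z, hZY, hZ⟩ := Finset.exists_subset_card_eq hY
        have h1 := ih ((fun x => blk Q Y x (m * d) d a c, Z) :: l) c b
          (by rw [List.length_cons]; omega) (by
            intro q hq'
            rw [List.mem_cons] at hq'
            rcases hq' with rfl | hq'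
            · refine ⟨⟨fun x => (blk_cp Q hQ Y x _ _).norm_le a c, fun x h => ?_⟩, hZ⟩
              simp only
              rw [← restr_restr hZY, blk_blind]
            · exact hq q hq')
        have h2 : 𝔼 x : Inp n p, χ x * ((wt s₀ Y : ℂ) * blk Q Y x (m * d) d a c *
            blk Q ∅ x 0 (m * d) c b * (l.map fun q => q.1 x).prod) =
            (wt s₀ Y : ℂ) * 𝔼 x : Inp n p, χ x * (blk Q ∅ x 0 (m * d) c b *
              ((((fun x => blk Q Y x (m * d) d a c, Z) ::
                l : List ((Inp n p → ℂ) × Finset (Fin n)))).map fun q => q.1 x).prod) := by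
          rw [mul_expect]
          refine expect_congr rfl fun x _ => ?_
          simp only [List.map_cons, List.prod_cons]
          ring
        rw [h2, norm_mul, Complex.norm_real, Real.norm_eq_abs]
        exact mul_le_mul_of_nonneg_left h1 (abs_nonneg _)
    have h3 : ∀ x : Inp n p, χ x * (blk Q ∅ x 0 ((m + 1) * d) a b *
        (l.map fun q => q.1 x).prod) = ∑ c, ∑ Y : Finset (Fin n),
        χ x * ((wt s₀ Y : ℂ) * blk Q Y x (m * d) d a c *
          blk Q ∅ x 0 (m * d) c b * (l.map fun q => q.1 x).prod) := by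
      intro x
      rw [Nat.succ_mul, blk_add, zero_add, Matrix.mul_apply, sum_mul, mul_sum]
      refine sum_congr rfl fun c _ => ?_
      have h4 := Low.eval (ι := Fin n) (k := 2 * d) (s := s₀)
        (by rw [Fintype.card_fin]; exact hd) (blk_low Q x (m * d) d a c)
      rw [← h4, sum_mul, sum_mul, mul_sum]
    simp only [h3]
    rw [expect_sum_comm]
    refine (norm_sum_le _ _).trans ?_
    have h5 : ∀ c : Fin D × Fin D, ‖𝔼 x : Inp n p, ∑ Y : Finset (Fin n),
        χ x * ((wt s₀ Y : ℂ) * blk Q Y x (m * d) d a c *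
          blk Q ∅ x 0 (m * d) c b * (l.map fun q => q.1 x).prod)‖ ≤
        3 ^ n * (((D : ℝ) ^ 2 * 3 ^ n) ^ m * B) := by
      intro c
      rw [expect_sum_comm]
      refine (norm_sum_le _ _).trans ((sum_le_sum fun Y _ => key c Y).trans ?_)
      rw [← sum_mul]
      refine mul_le_mul_of_nonneg_right ?_ (by positivity)
      have := sum_abs_wt (ι := Fin n) s₀
      rwa [Fintype.card_fin] at this
    refine (sum_le_sum fun c _ => h5 c).trans (le_of_eq ?_)
    rw [sum_const, card_univ, Fintype.card_prod, Fintype.card_fin, nsmul_eq_mul]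
    push_cast
    ring

/-- A machine with few steps is almost uncorrelated with the characters of the function. -/
lemma corr_prob (hQ : Q.Valid) {r d s₀ : ℕ} (hn : n ≤ p) (hr0 : 0 < r) (hr : r < p)
    (hd : 2 * d + s₀ ≤ n) (hT : T ≤ r * d) (a : ZMod p) (ha : a ≠ 0) :
    ‖𝔼 x : Inp n p, psi p (a * fn r s₀ x) *
      ((Q.prob Q.yes x - Q.prob Q.no x : ℝ) : ℂ)‖ ≤
      D * (((D : ℝ) ^ 2 * 3 ^ n) ^ r * ((((r - 1 : ℕ) : ℝ) / p) ^ s₀) ^ ((1 : ℝ) / 2 ^ r)) := by
  set B : ℝ := ((((r - 1 : ℕ) : ℝ) / p) ^ s₀) ^ ((1 : ℝ) / 2 ^ r) with hBdef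
  have hB : ∀ l : List ((Inp n p → ℂ) × Finset (Fin n)), l.length = r →
      (∀ q ∈ l, Blind q ∧ q.2.card = s₀) →
      ‖𝔼 x : Inp n p, psi p (a * fn r s₀ x) * (l.map fun q => q.1 x).prod‖ ≤ B := by
    intro l hl hq
    have h1 := nof_bound (k := s₀) hn hr a ha l hq hl hr0
    rw [hBdef]
    have h2 : (0 : ℝ) ≤ (((r - 1 : ℕ) : ℝ) / p) ^ s₀ := by positivity
    calc ‖𝔼 x : Inp n p, psi p (a * fn r s₀ x) * (l.map fun q => q.1 x).prod‖
        = (‖𝔼 x : Inp n p, psi p (a * fn r s₀ x) * (l.map fun q => q.1 x).prod‖ ^ 2 ^ r) ^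
          ((1 : ℝ) / 2 ^ r) := by
          rw [← Real.rpow_natCast, ← Real.rpow_mul (norm_nonneg _)]
          push_cast
          rw [mul_one_div_cancel (by positivity), Real.rpow_one]
      _ ≤ _ := Real.rpow_le_rpow (by positivity) h1 (by positivity)
  have h1 : ∀ c : Fin D, ‖𝔼 x : Inp n p, psi p (a * fn r s₀ x) * Q.state x T c c‖ ≤
      ((D : ℝ) ^ 2 * 3 ^ n) ^ r * B := by
    intro c
    have h2 := corr_blk Q hQ (fun x => psi p (a * fn r s₀ x)) hd hB r [] (c, c)
      (Q.init, Q.init) (by simp) (by simp)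
    simp only [List.map_nil, List.prod_nil, mul_one] at h2
    refine le_trans (le_of_eq ?_) h2
    congr 1
    refine expect_congr rfl fun x _ => ?_
    rw [← state_eq, state_ge Q x (r * d) hT]
  have h2 : ∀ (S : Finset (Fin D)) (x : Inp n p), ((Q.prob S x : ℝ) : ℂ) =
      ∑ c ∈ S, Q.state x T c c := by
    intro S x
    unfold Machine.prob
    push_cast
    refine sum_congr rfl fun c _ => ?_
    exact Complex.conj_eq_iff_re.1 (state_herm Q x T c c)
  have h3 : ∀ S : Finset (Fin D), ‖𝔼 x : Inp n p, psi p (a * fn r s₀ x) *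
      ((Q.prob S x : ℝ) : ℂ)‖ ≤ S.card * (((D : ℝ) ^ 2 * 3 ^ n) ^ r * B) := by
    intro S
    simp only [h2, mul_sum]
    rw [expect_sum_comm]
    refine (norm_sum_le _ _).trans ((sum_le_sum fun c _ => h1 c).trans ?_)
    rw [sum_const, nsmul_eq_mul]
  have h4 : 𝔼 x : Inp n p, psi p (a * fn r s₀ x) * ((Q.prob Q.yes x - Q.prob Q.no x : ℝ) : ℂ) =
      𝔼 x : Inp n p, psi p (a * fn r s₀ x) * ((Q.prob Q.yes x : ℝ) : ℂ) -
      𝔼 x : Inp n p, psi p (a * fn r s₀ x) * ((Q.prob Q.no x : ℝ) : ℂ) := by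
    rw [← expect_sub_distrib]
    refine expect_congr rfl fun x _ => ?_
    push_cast
    ring
  rw [h4]
  refine (norm_sub_le _ _).trans ((add_le_add (h3 _) (h3 _)).trans ?_)
  rw [← add_mul]
  refine mul_le_mul_of_nonneg_right ?_ (by positivity)
  have h5 := card_union_of_disjoint hQ.2
  have h6 : (Q.yes ∪ Q.no).card ≤ D := by
    have := card_le_univ (Q.yes ∪ Q.no)
    rwa [Fintype.card_fin] at this
  have h7 : Q.yes.card + Q.no.card ≤ D := by omega
  exact_mod_cast h7

/-- The quantitative form of the lower bound. -/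
lemma finite_bound (hQ : Q.Valid) {S : ℕ} {δ : ℝ} (hδ : 0 < δ) {r d s₀ : ℕ} (hn : n ≤ p)
    (hr0 : 0 < r) (hr : r < p) (hd : 2 * d + s₀ ≤ n) (hT : T ≤ r * d)
    (hc : Q.Computes S δ (fun x => fn r s₀ x = 0)) :
    2 * δ * (1 / 2) ^ S / p ≤
      D * (((D : ℝ) ^ 2 * 3 ^ n) ^ r * ((((r - 1 : ℕ) : ℝ) / p) ^ s₀) ^ ((1 : ℝ) / 2 ^ r)) := by
  have hp := (Fact.out : p.Prime)
  have hp0 : (0 : ℝ) < p := by exact_mod_cast hp.pos
  have hp2 : (2 : ℝ) ≤ p := by exact_mod_cast hp.two_le
  set m : Inp n p → ℝ := fun x => Q.prob Q.yes x - Q.prob Q.no x with hm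
  set K : ℝ := D * (((D : ℝ) ^ 2 * 3 ^ n) ^ r *
    ((((r - 1 : ℕ) : ℝ) / p) ^ s₀) ^ ((1 : ℝ) / 2 ^ r)) with hK
  set κ : ℝ := 2 * δ * (1 / 2) ^ S with hκ
  have hκ0 : 0 < κ := by positivity
  have hm1 : ∀ x, fn r s₀ x = 0 → κ ≤ m x := by
    intro x hx
    obtain ⟨h1, h2, -⟩ := hc x
    have h3 := h2 hx
    simp only [hm, hκ]
    nlinarith
  have hm2 : ∀ x, fn r s₀ x ≠ 0 → m x ≤ -κ := by
    intro x hx
    obtain ⟨h1, -, h2⟩ := hc x
    have h3 := h2 hx
    simp only [hm, hκ]
    nlinarith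
  have hind : ∀ y : ZMod p, ((if y = 0 then 1 else 0 : ℝ) : ℂ) - 1 / p =
      (1 / p) * ∑ a ∈ univ.erase (0 : ZMod p), psi p (a * y) := by
    intro y
    have h1 : ∑ a : ZMod p, psi p (a * y) = if y = 0 then (p : ℂ) else 0 := by
      have h2 := AddChar.sum_mulShift y (ZMod.isPrimitive_stdAddChar p)
      rw [h2, ZMod.card]
      split_ifs <;> simp
    have h3 : psi p (0 * y) + ∑ a ∈ univ.erase (0 : ZMod p), psi p (a * y) =
        ∑ a : ZMod p, psi p (a * y) :=
      Finset.add_sum_erase univ (fun a : ZMod p => psi p (a * y)) (mem_univ (0 : ZMod p))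
    rw [zero_mul, AddChar.map_zero_eq_one, h1] at h3
    have h4 : ∑ a ∈ univ.erase (0 : ZMod p), psi p (a * y) = (if y = 0 then (p : ℂ) else 0) - 1 := by
      rw [← h3]; ring
    rw [h4]
    have hpc : (p : ℂ) ≠ 0 := by exact_mod_cast hp.ne_zero
    split_ifs
    · push_cast; field_simp
    · push_cast; ring
  have h1 : ‖((𝔼 x : Inp n p, ((if fn r s₀ x = 0 then 1 else 0 : ℝ) - 1 / p) * m x : ℝ) : ℂ)‖ ≤ K := by
    have h2 : ((𝔼 x : Inp n p, ((if fn r s₀ x = 0 then 1 else 0 : ℝ) - 1 / p) * m x : ℝ) : ℂ) =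
        (1 / p) * ∑ a ∈ univ.erase (0 : ZMod p), 𝔼 x : Inp n p, psi p (a * fn r s₀ x) *
          ((m x : ℝ) : ℂ) := by
      rw [← expect_sum_comm, mul_expect, Fintype.expect_eq_sum_div_card,
        Fintype.expect_eq_sum_div_card, Complex.ofReal_div, Complex.ofReal_sum]
      congr 1
      refine sum_congr rfl fun x _ => ?_
      rw [← sum_mul, ← mul_assoc, ← hind]
      push_cast
      rfl
    rw [h2, norm_mul]
    have h3 : ‖∑ a ∈ univ.erase (0 : ZMod p), 𝔼 x : Inp n p, psi p (a * fn r s₀ x) *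
        ((m x : ℝ) : ℂ)‖ ≤ p * K := by
      refine (norm_sum_le _ _).trans ?_
      have h4 : ∀ a ∈ univ.erase (0 : ZMod p), ‖𝔼 x : Inp n p, psi p (a * fn r s₀ x) *
          ((m x : ℝ) : ℂ)‖ ≤ K := fun a ha =>
        corr_prob Q hQ hn hr0 hr hd hT a (ne_of_mem_erase ha)
      refine (sum_le_sum h4).trans ?_
      rw [sum_const, nsmul_eq_mul]
      refine mul_le_mul_of_nonneg_right ?_ (by rw [hK]; positivity)
      have h5 : (univ.erase (0 : ZMod p)).card ≤ p := by
        have := card_le_univ (univ.erase (0 : ZMod p))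
        rwa [ZMod.card] at this
      exact_mod_cast h5
    have h6 : ‖(1 / p : ℂ)‖ = 1 / p := by simp
    rw [h6]
    calc 1 / (p : ℝ) * _ ≤ 1 / p * (p * K) := mul_le_mul_of_nonneg_left h3 (by positivity)
      _ = K := by field_simp
  have h2 : κ / p ≤ 𝔼 x : Inp n p, ((if fn r s₀ x = 0 then 1 else 0 : ℝ) - 1 / p) * m x := by
    have h3 : κ / p = 𝔼 _x : Inp n p, κ / p := (Fintype.expect_const _).symm
    rw [h3]
    refine expect_le_expect fun x _ => ?_
    by_cases hx : fn r s₀ x = 0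
    · rw [if_pos hx]
      have h4 := hm1 x hx
      have h5 : 1 / (p : ℝ) ≤ 1 - 1 / p := by
        rw [div_le_iff₀ hp0]
        have : (1 - 1 / (p : ℝ)) * p = p - 1 := by field_simp
        rw [this]; linarith
      calc κ / p = (1 / p) * κ := by ring
        _ ≤ (1 - 1 / p) * m x := mul_le_mul h5 h4 hκ0.le (le_trans (by positivity) h5)
    · rw [if_neg hx]
      have h4 := hm2 x hx
      calc κ / p = (1 / p) * κ := by ring
        _ ≤ (1 / p) * (-m x) := mul_le_mul_of_nonneg_left (by linarith) (by positivity)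
        _ = _ := by ring
  rw [Complex.norm_real, Real.norm_eq_abs] at h1
  exact h2.trans ((le_abs_self _).trans h1)

end Pool.Agent.W977.CQ
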