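import Mathlib

/-!
# Correlation of sums of powers of linear forms with products of functions each of which does not
look at some of the variables
-/

open Finset Matrix
open scoped BigOperators ComplexConjugate

namespace Pool.Agent.W977.CQ

section general

variable {X : Type} [AddCommGroup X] [Fintype X]

/-- The Cauchy-Schwarz step. -/
lemma cs_step (π : X →+ X) (g u : X → ℂ) (hg : ∀ x, ‖g x‖ ≤ 1) (hinv : ∀ x h, g (x + π h) = g x) :
    ‖𝔼 x, g x * u x‖ ^ 2 ≤ ‖𝔼 h, 𝔼 x, u x * conj (u (x + π h))‖ := by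
  have h1 : 𝔼 x, g x * u x = 𝔼 x, g x * 𝔼 h, u (x + π h) := by
    have : ∀ h : X, 𝔼 x, g x * u x = 𝔼 x, g x * u (x + π h) := by
      intro h
      rw [← Fintype.expect_equiv (Equiv.addRight (π h)) (fun x => g (x + π h) * u (x + π h))
        (fun x => g x * u x) (fun x => rfl)]
      simp only [hinv]
    calc 𝔼 x, g x * u x = 𝔼 h : X, 𝔼 x, g x * u x := (Fintype.expect_const _).symm
      _ = 𝔼 h : X, 𝔼 x, g x * u (x + π h) := by
        refine expect_congr rfl fun h _ => this h
      _ = 𝔼 x, 𝔼 h : X, g x * u (x + π h) := expect_comm _ _ _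
      _ = _ := by
        refine expect_congr rfl fun x _ => ?_
        rw [mul_expect]
  have h2 : ‖𝔼 x, g x * u x‖ ^ 2 ≤ 𝔼 x, ‖𝔼 h, u (x + π h)‖ ^ 2 := by
    rw [h1]
    have h3 : ‖𝔼 x, g x * 𝔼 h, u (x + π h)‖ ≤ 𝔼 x, ‖𝔼 h, u (x + π h)‖ := by
      refine (RCLike.norm_expect_le (K := ℂ)).trans ?_
      refine expect_le_expect fun x _ => ?_
      rw [norm_mul]
      exact mul_le_of_le_one_left (norm_nonneg _) (hg x)
    refine (pow_le_pow_left₀ (norm_nonneg _) h3 2).trans ?_
    rw [Fintype.expect_eq_sum_div_card, Fintype.expect_eq_sum_div_card]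
    have h5 : (∑ x, ‖𝔼 h, u (x + π h)‖) ^ 2 ≤
        (Fintype.card X : ℝ) * ∑ x, ‖𝔼 h, u (x + π h)‖ ^ 2 := by
      have := sq_sum_le_card_mul_sum_sq (s := (univ : Finset X))
        (f := fun x => ‖𝔼 h, u (x + π h)‖)
      rwa [card_univ] at this
    have h6 : (0 : ℝ) < Fintype.card X := by
      have : Nonempty X := ⟨0⟩
      exact_mod_cast Fintype.card_pos
    rw [div_pow, div_le_div_iff₀ (by positivity) h6]
    nlinarith
  refine h2.trans (le_of_eq ?_)
  have h7 : ((𝔼 x, ‖𝔼 h, u (x + π h)‖ ^ 2 : ℝ) : ℂ) = 𝔼 h, 𝔼 x, u x * conj (u (x + π h)) := by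
    calc ((𝔼 x, ‖𝔼 h, u (x + π h)‖ ^ 2 : ℝ) : ℂ)
        = 𝔼 x, ((‖𝔼 h, u (x + π h)‖ ^ 2 : ℝ) : ℂ) := by
          rw [Fintype.expect_eq_sum_div_card, Fintype.expect_eq_sum_div_card]
          push_cast
          rfl
      _ = 𝔼 x, (𝔼 h, u (x + π h)) * conj (𝔼 h, u (x + π h)) := by
          refine expect_congr rfl fun x _ => ?_
          rw [Complex.mul_conj, Complex.normSq_eq_norm_sq]
      _ = 𝔼 x, 𝔼 h, 𝔼 h', u (x + π h) * conj (u (x + π h')) := by
          refine expect_congr rfl fun x _ => ?_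
          rw [map_expect (starRingEnd ℂ), expect_mul]
          refine expect_congr rfl fun h _ => ?_
          rw [mul_expect]
      _ = 𝔼 h, 𝔼 h', 𝔼 x, u (x + π h) * conj (u (x + π h')) := by
          rw [expect_comm]
          refine expect_congr rfl fun h _ => ?_
          rw [expect_comm]
      _ = 𝔼 h : X, 𝔼 h', 𝔼 x, u x * conj (u (x + π h')) := by
          refine expect_congr rfl fun h _ => ?_
          refine Fintype.expect_equiv (Equiv.addRight (-h)) _ _ fun h' => ?_
          refine Fintype.expect_equiv (Equiv.addRight (π h)) _ _ fun x => ?_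
          simp only [Equiv.coe_addRight, map_add, map_neg]
          congr 3
          abel
      _ = _ := Fintype.expect_const _
  have h8 : (0 : ℝ) ≤ 𝔼 x, ‖𝔼 h, u (x + π h)‖ ^ 2 := expect_nonneg fun _ _ => by positivity
  rw [← h7, Complex.norm_real, Real.norm_of_nonneg h8]

lemma expect_pow_le (a : X → ℝ) (ha : ∀ x, 0 ≤ a x) (m : ℕ) :
    (𝔼 x, a x) ^ m ≤ 𝔼 x, a x ^ m := by
  have : Nonempty X := ⟨0⟩
  have h6 : (0 : ℝ) < Fintype.card X := by exact_mod_cast Fintype.card_pos
  have := Real.pow_arith_mean_le_arith_mean_pow (univ : Finset X)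
    (fun _ => (1 : ℝ) / Fintype.card X) a (fun _ _ => by positivity)
    (by rw [sum_const, card_univ, nsmul_eq_mul]; field_simp) (fun x _ => ha x) m
  rw [Fintype.expect_eq_sum_div_card, Fintype.expect_eq_sum_div_card, sum_div, sum_div]
  simpa only [one_div, ← div_eq_inv_mul] using this

end general

section field

variable {n p : ℕ} [Fact p.Prime]

/-- Inputs. -/
abbrev Inp (n p : ℕ) : Type := Fin n → ZMod p

/-- Restriction of a vector to the coordinates in `Z`. -/
def restr (Z : Finset (Fin n)) : Inp n p →+ Inp n p where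
  toFun h i := if i ∈ Z then h i else 0
  map_zero' := by funext i; simp
  map_add' x y := by funext i; simp only [Pi.add_apply]; split_ifs <;> simp

lemma restr_apply (Z : Finset (Fin n)) (h : Inp n p) (i : Fin n) :
    restr Z h i = if i ∈ Z then h i else 0 := rfl

/-- The standard additive character. -/
noncomputable abbrev psi (p : ℕ) [NeZero p] : AddChar (ZMod p) ℂ := ZMod.stdAddChar

lemma psi_mul_conj (a b : ZMod p) : psi p a * conj (psi p b) = psi p (a - b) := by
  rw [sub_eq_add_neg, AddChar.map_add_eq_mul, AddChar.map_neg_eq_conj]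

lemma norm_psi (a : ZMod p) : ‖psi p a‖ = 1 := AddChar.norm_apply _ _

/-- The iterated average over the shifts. -/
noncomputable def Nn : List (Finset (Fin n)) → Finset (Fin n) → (Inp n p → ZMod p) → ℝ
  | [], Z₁, F => ‖𝔼 h : Inp n p, 𝔼 x : Inp n p, psi p (F x - F (x + restr Z₁ h))‖
  | Z :: Zs, Z₁, F => 𝔼 h : Inp n p, Nn Zs Z₁ (fun x => F x - F (x + restr Z h))

/-- Functions bounded by one which do not look at the coordinates in a set. -/
def Blind (q : (Inp n p → ℂ) × Finset (Fin n)) : Prop :=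
  (∀ x, ‖q.1 x‖ ≤ 1) ∧ ∀ x h, q.1 (x + restr q.2 h) = q.1 x

lemma Blind.shift {q : (Inp n p → ℂ) × Finset (Fin n)} (hq : Blind q) (y : Inp n p) :
    Blind (fun x => q.1 x * conj (q.1 (x + y)), q.2) := by
  refine ⟨fun x => ?_, fun x h => ?_⟩
  · simp only [norm_mul, RCLike.norm_conj]
    exact mul_le_one₀ (hq.1 x) (norm_nonneg _) (hq.1 _)
  · simp only
    rw [hq.2, add_right_comm, hq.2]

lemma prod_shift (l : List ((Inp n p → ℂ) × Finset (Fin n))) (x y : Inp n p) :
    ((l.map fun q => ((fun x => q.1 x * conj (q.1 (x + y)), q.2) :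
      (Inp n p → ℂ) × Finset (Fin n))).map fun q => q.1 x).prod =
    (l.map fun q => q.1 x).prod * conj ((l.map fun q => q.1 (x + y)).prod) := by
  induction l with
  | nil => simp
  | cons q l ih =>
    simp only [List.map_cons, List.prod_cons] at ih ⊢
    rw [ih, map_mul]
    ring

lemma nof_aux (Z₁ : Finset (Fin n)) (m : ℕ) :
    ∀ (l : List ((Inp n p → ℂ) × Finset (Fin n))) (g₁ : Inp n p → ℂ) (F : Inp n p → ZMod p),
    l.length = m → Blind (g₁, Z₁) → (∀ q ∈ l, Blind q) →
    ‖𝔼 x : Inp n p, psi p (F x) * g₁ x * (l.map fun q => q.1 x).prod‖ ^ 2 ^ (m + 1) ≤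
      Nn (l.map Prod.snd) Z₁ F := by
  induction m with
  | zero =>
    intro l g₁ F hl0 hg₁ _
    rw [List.length_eq_zero_iff] at hl0
    subst hl0
    simp only [List.map_nil, List.prod_nil, mul_one, zero_add, pow_one, Nn]
    have := cs_step (restr Z₁) g₁ (fun x => psi p (F x)) hg₁.1 hg₁.2
    simp only [psi_mul_conj] at this
    simpa only [mul_comm] using this
  | succ m ih =>
    intro l g₁ F hlm hg₁ hl
    obtain ⟨q, l, rfl⟩ := List.exists_cons_of_length_eq_add_one hlm
    have hlm' : l.length = m := by simpa using hlm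
    have hq : Blind q := hl q (List.mem_cons_self ..)
    have hl' : ∀ q ∈ l, Blind q := fun q h => hl q (List.mem_cons_of_mem _ h)
    simp only [List.map_cons, List.prod_cons, Nn]
    have h1 := cs_step (restr q.2) q.1
      (fun x => psi p (F x) * g₁ x * (l.map fun q => q.1 x).prod) hq.1 hq.2
    have h2 : ‖𝔼 x : Inp n p, psi p (F x) * g₁ x * (q.1 x * (l.map fun q => q.1 x).prod)‖ ^ 2 ≤
        𝔼 h : Inp n p, ‖𝔼 x : Inp n p, psi p (F x - F (x + restr q.2 h)) *
          (g₁ x * conj (g₁ (x + restr q.2 h))) *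
          ((l.map fun q' => ((fun x => q'.1 x * conj (q'.1 (x + restr q.2 h)), q'.2) :
            (Inp n p → ℂ) × Finset (Fin n))).map fun q => q.1 x).prod‖ := by
      have e1 : ∀ x : Inp n p, psi p (F x) * g₁ x * (q.1 x * (l.map fun q => q.1 x).prod) =
          q.1 x * (psi p (F x) * g₁ x * (l.map fun q => q.1 x).prod) := fun x => by ring
      simp only [e1]
      refine h1.trans ((RCLike.norm_expect_le (K := ℂ)).trans ?_)
      refine expect_le_expect fun h _ => le_of_eq ?_
      congr 1
      refine expect_congr rfl fun x _ => ?_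
      rw [prod_shift, ← psi_mul_conj]
      simp only [map_mul]
      ring
    calc ‖𝔼 x : Inp n p, psi p (F x) * g₁ x * (q.1 x * (l.map fun q => q.1 x).prod)‖ ^
          2 ^ (m + 1 + 1)
        = (‖𝔼 x : Inp n p, psi p (F x) * g₁ x * (q.1 x * (l.map fun q => q.1 x).prod)‖ ^ 2) ^
          2 ^ (m + 1) := by
          rw [← pow_mul]; congr 1; rw [pow_succ]; ring
      _ ≤ (𝔼 h : Inp n p, ‖𝔼 x : Inp n p, psi p (F x - F (x + restr q.2 h)) *
          (g₁ x * conj (g₁ (x + restr q.2 h))) *
          ((l.map fun q' => ((fun x => q'.1 x * conj (q'.1 (x + restr q.2 h)), q'.2) :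
            (Inp n p → ℂ) × Finset (Fin n))).map fun q => q.1 x).prod‖) ^ 2 ^ (m + 1) :=
          pow_le_pow_left₀ (by positivity) h2 _
      _ ≤ _ := expect_pow_le _ (fun _ => norm_nonneg _) _
      _ ≤ _ := by
          refine expect_le_expect fun h _ => ?_
          have := ih (l.map fun q' => ((fun x => q'.1 x * conj (q'.1 (x + restr q.2 h)), q'.2) :
            (Inp n p → ℂ) × Finset (Fin n))) (fun x => g₁ x * conj (g₁ (x + restr q.2 h)))
            (fun x => F x - F (x + restr q.2 h)) (by simpa using hlm')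
            (Blind.shift (q := (g₁, Z₁)) hg₁ _) ?_
          · refine this.trans (le_of_eq ?_)
            rw [List.map_map]
            rfl
          · intro q' hq'
            rw [List.mem_map] at hq'
            obtain ⟨q'', h'', rfl⟩ := hq'
            exact (hl' q'' h'').shift _

/-- The power sums of the positions with coefficients `x`. -/
def lin (j : ℕ) (x : Inp n p) : ZMod p := ∑ i : Fin n, ((i : ℕ) : ZMod p) ^ j * x i

lemma lin_add (j : ℕ) (x y : Inp n p) : lin j (x + y) = lin j x + lin j y := by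
  unfold lin
  rw [← sum_add_distrib]
  exact sum_congr rfl fun i _ => by rw [Pi.add_apply]; ring

/-- The map given by the first `k` power sums of the coordinates in `Z`. -/
def linR (k : ℕ) (Z : Finset (Fin n)) : Inp n p →+ (Fin k → ZMod p) where
  toFun h j := lin j (restr Z h)
  map_zero' := by funext j; simp [lin]
  map_add' x y := by funext j; simp only [map_add, lin_add, Pi.add_apply]

lemma linR_surjective {k : ℕ} {Z : Finset (Fin n)} (hZ : Z.card = k) (hn : n ≤ p) :
    Function.Surjective (linR (p := p) k Z) := by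
  intro z
  let e : Fin k ≃o Z := Z.orderIsoOfFin hZ
  let V : Matrix (Fin k) (Fin k) (ZMod p) := Matrix.vandermonde fun a => (((e a : Fin n) : ℕ) : ZMod p)
  have hV : V.det ≠ 0 := by
    rw [Matrix.det_vandermonde_ne_zero_iff]
    intro a b hab
    have h1 : (((e a : Fin n) : ℕ) : ZMod p) = (((e b : Fin n) : ℕ) : ZMod p) := hab
    rw [ZMod.natCast_eq_natCast_iff'] at h1
    rw [Nat.mod_eq_of_lt (lt_of_lt_of_le (e a : Fin n).2 hn),
      Nat.mod_eq_of_lt (lt_of_lt_of_le (e b : Fin n).2 hn)] at h1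
    exact e.injective (Subtype.ext (Fin.ext h1))
  have hVu : IsUnit V.det := isUnit_iff_ne_zero.2 hV
  let w : Fin k → ZMod p := z ᵥ* V⁻¹
  have hw : w ᵥ* V = z := by
    rw [Matrix.vecMul_vecMul, Matrix.nonsing_inv_mul V hVu, Matrix.vecMul_one]
  refine ⟨fun i => if h : i ∈ Z then w (e.symm ⟨i, h⟩) else 0, ?_⟩
  funext j
  show lin j (restr Z _) = z j
  unfold lin
  have h2 : ∀ i : Fin n, ((i : ℕ) : ZMod p) ^ (j : ℕ) * restr Z (fun i => if h : i ∈ Z then
      w (e.symm ⟨i, h⟩) else 0) i = if h : i ∈ Z then ((i : ℕ) : ZMod p) ^ (j : ℕ) *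
      w (e.symm ⟨i, h⟩) else 0 := by
    intro i
    rw [restr_apply]
    by_cases h : i ∈ Z
    · simp [h]
    · simp [h]
  rw [sum_congr rfl fun i _ => h2 i, ← hw]
  have h3 : ∑ i : Fin n, (if h : i ∈ Z then ((i : ℕ) : ZMod p) ^ (j : ℕ) *
      w (e.symm ⟨i, h⟩) else 0) = ∑ i : Z, ((i : ℕ) : ZMod p) ^ (j : ℕ) * w (e.symm i) := by
    rw [← Finset.sum_subset (Finset.subset_univ Z)]
    · rw [← Finset.sum_coe_sort Z]
      refine sum_congr rfl fun i _ => ?_
      rw [dif_pos i.2]
    · intro i _ hi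
      rw [dif_neg hi]
  rw [h3, ← e.toEquiv.sum_comp]
  simp only [Matrix.vecMul, dotProduct]
  refine sum_congr rfl fun a _ => ?_
  have h4 : V a j = (((e a : Fin n) : ℕ) : ZMod p) ^ (j : ℕ) := rfl
  rw [h4, mul_comm]
  simp

lemma linR_expect {E : Type} [AddCommGroup E] [Module ℚ≥0 E] {k : ℕ} {Z : Finset (Fin n)}
    (hZ : Z.card = k) (hn : n ≤ p) (G : (Fin k → ZMod p) → E) :
    𝔼 h : Inp n p, G (linR k Z h) = 𝔼 z, G z := by
  have hs := linR_surjective (p := p) hZ hn
  have hc : ∀ z : Fin k → ZMod p, (univ.filter fun h : Inp n p => linR k Z h = z).card =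
      (univ.filter fun h : Inp n p => linR k Z h = 0).card := fun z =>
    AddMonoidHom.card_fiber_eq_of_mem_range _ (hs z) (hs 0)
  set c := (univ.filter fun h : Inp n p => linR k Z h = 0).card with hcdef
  have h1 : ∑ h : Inp n p, G (linR k Z h) = c • ∑ z, G z := by
    rw [← Finset.sum_fiberwise_of_maps_to (g := linR k Z) (t := univ) (fun _ _ => mem_univ _),
      smul_sum]
    refine sum_congr rfl fun z _ => ?_
    rw [← hc z, ← sum_const]
    refine sum_congr rfl fun h hh => ?_
    rw [(mem_filter.1 hh).2]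
  have h2 : Fintype.card (Inp n p) = c * Fintype.card (Fin k → ZMod p) := by
    rw [← card_univ, Finset.card_eq_sum_card_fiberwise (f := linR k Z) (t := univ)
      (fun _ _ => mem_coe.2 (mem_univ _)), sum_congr rfl fun z _ => hc z, sum_const, card_univ,
      smul_eq_mul, mul_comm]
  have h3 : (c : ℚ≥0) ≠ 0 := by
    have : 0 < c := card_pos.2 ⟨0, by simp⟩
    exact_mod_cast this.ne'
  rw [expect_univ, expect_univ, h1, h2, ← Nat.cast_smul_eq_nsmul ℚ≥0 c, smul_smul]
  congr 1
  push_cast
  field_simp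

lemma psi_sum {κ : Type} (s : Finset κ) (f : κ → ZMod p) :
    psi p (∑ i ∈ s, f i) = ∏ i ∈ s, psi p (f i) := by
  classical
  induction s using Finset.induction_on with
  | empty => simp
  | insert a s ha ih => rw [sum_insert ha, prod_insert ha, AddChar.map_add_eq_mul, ih]

lemma expect_prod {K : Type} [Field K] [CharZero K] {α : Type} [Fintype α] {k : ℕ}
    (f : Fin k → α → K) : 𝔼 z : Fin k → α, ∏ j, f j (z j) = ∏ j, 𝔼 a, f j a := by
  classical
  simp only [Fintype.expect_eq_sum_div_card]
  rw [Finset.prod_div_distrib, Finset.prod_univ_sum, Fintype.piFinset_univ, prod_const]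
  simp

lemma taylor_sub_natDegree {d : ℕ} {P : Polynomial (ZMod p)} (t : ZMod p)
    (h : P.natDegree ≤ d + 1) : (P - Polynomial.taylor t P).natDegree ≤ d := by
  rw [Polynomial.natDegree_le_iff_coeff_eq_zero]
  intro N hN
  rw [Polynomial.coeff_sub, Polynomial.taylor_coeff]
  have h1 : (Polynomial.hasseDeriv N P).eval t = P.coeff N := by
    have h2 : Polynomial.hasseDeriv N P = Polynomial.C (P.coeff N) := by
      ext i
      rw [Polynomial.hasseDeriv_coeff, Polynomial.coeff_C]
      by_cases hi : i = 0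
      · subst hi
        simp
      · rw [if_neg hi, Polynomial.coeff_eq_zero_of_natDegree_lt (by omega), mul_zero]
    rw [h2, Polynomial.eval_C]
  rw [h1, sub_self]

lemma taylor_sub_coeff {d : ℕ} {P : Polynomial (ZMod p)} (t : ZMod p)
    (h : P.natDegree ≤ d + 1) :
    (P - Polynomial.taylor t P).coeff d = -((d + 1 : ℕ) : ZMod p) * P.coeff (d + 1) * t := by
  rw [Polynomial.coeff_sub, Polynomial.taylor_coeff]
  have h2 : Polynomial.hasseDeriv d P = Polynomial.C (P.coeff d) +
      Polynomial.C (((d + 1 : ℕ) : ZMod p) * P.coeff (d + 1)) * Polynomial.X := by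
    ext i
    rw [Polynomial.hasseDeriv_coeff, Polynomial.coeff_add, Polynomial.coeff_C_mul,
      Polynomial.coeff_C, Polynomial.coeff_X]
    rcases i with _ | _ | i
    · simp
    · simp only [zero_add, Nat.add_comm 1 d, Nat.choose_succ_self_right, if_true, mul_one,
        one_ne_zero, if_false]
    · rw [Polynomial.coeff_eq_zero_of_natDegree_lt (by omega)]
      simp
  rw [h2]
  simp only [Polynomial.eval_add, Polynomial.eval_C, Polynomial.eval_mul, Polynomial.eval_X]
  ring

/-- Sums of polynomials in the power sums. -/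
noncomputable def pol {k : ℕ} (P : Fin k → Polynomial (ZMod p)) (x : Inp n p) : ZMod p :=
  ∑ j : Fin k, (P j).eval (lin j x)

lemma pol_sub {k : ℕ} (P : Fin k → Polynomial (ZMod p)) (x y : Inp n p) :
    pol P x - pol P (x + y) = pol (fun j : Fin k => P j - Polynomial.taylor (lin j y) (P j)) x := by
  unfold pol
  rw [← sum_sub_distrib]
  refine sum_congr rfl fun j _ => ?_
  rw [Polynomial.eval_sub, Polynomial.taylor_eval, lin_add]

/-- The bound for one coordinate. -/
noncomputable def bet (p m : ℕ) (v : ZMod p) : ℝ := if v = 0 then 1 else (m : ℝ) / p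

omit [Fact p.Prime] in
lemma bet_nonneg (m : ℕ) (v : ZMod p) : 0 ≤ bet p m v := by
  unfold bet; split_ifs <;> positivity

lemma expect_bet (m : ℕ) (v : ZMod p) : 𝔼 z : ZMod p, bet p m (v * z) ≤ bet p (m + 1) v := by
  by_cases hv : v = 0
  · subst hv
    simp [bet]
  · have hp0 : (0 : ℝ) < p := by exact_mod_cast (Fact.out : p.Prime).pos
    have h1 : ∀ z : ZMod p, bet p m (v * z) ≤ (if z = 0 then 1 else 0) + (m : ℝ) / p := by
      intro z
      unfold bet
      by_cases hz : z = 0
      · subst hz; simp; positivity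
      · simp [hv, hz]
    refine (expect_le_expect fun z _ => h1 z).trans ?_
    rw [expect_add_distrib, Fintype.expect_const, Fintype.expect_eq_sum_div_card, sum_ite_eq' univ,
      if_pos (mem_univ _), ZMod.card]
    unfold bet
    rw [if_neg hv]
    push_cast
    rw [add_div, add_comm]

lemma nn_bound {k : ℕ} (hn : n ≤ p) {Z₁ : Finset (Fin n)} (hZ₁ : Z₁.card = k)
    (Zs : List (Finset (Fin n))) : (∀ Z ∈ Zs, Z.card = k) → Zs.length + 1 < p →
    ∀ (c : ZMod p) (v : Fin k → ZMod p) (P : Fin k → Polynomial (ZMod p)), c ≠ 0 →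
    (∀ j, (P j).natDegree ≤ Zs.length + 1) → (∀ j, (P j).coeff (Zs.length + 1) = c * v j) →
    Nn Zs Z₁ (pol P) ≤ ∏ j, bet p Zs.length (v j) := by
  induction Zs with
  | nil =>
    intro _ _ c v P hc hP hPc
    simp only [List.length_nil, zero_add, Nn] at hP hPc ⊢
    have h1 : ∀ h x : Inp n p, pol P x - pol P (x + restr Z₁ h) =
        ∑ j, -(c * v j) * linR k Z₁ h j := by
      intro h x
      rw [pol_sub]
      unfold pol
      refine sum_congr rfl fun j _ => ?_
      have h2 := taylor_sub_natDegree (d := 0) (lin (j : ℕ) (restr Z₁ h)) (by simpa using hP j)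
      have h3 := taylor_sub_coeff (d := 0) (lin (j : ℕ) (restr Z₁ h)) (by simpa using hP j)
      show Polynomial.eval _ (P j - Polynomial.taylor (lin (j : ℕ) (restr Z₁ h)) (P j)) = _
      rw [Polynomial.eq_C_of_natDegree_le_zero h2, Polynomial.eval_C, h3]
      simp only [zero_add, Nat.cast_one, hPc]
      show _ = -(c * v j) * lin (j : ℕ) (restr Z₁ h)
      ring
    simp only [h1, Fintype.expect_const]
    rw [linR_expect hZ₁ hn (fun z => psi p (∑ j, -(c * v j) * z j))]
    have h4 : ∀ z : Fin k → ZMod p, psi p (∑ j, -(c * v j) * z j) =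
        ∏ j, psi p (-(c * v j) * z j) := fun z => psi_sum _ _
    simp only [h4]
    rw [expect_prod (fun j a => psi p (-(c * v j) * a)), norm_prod]
    refine prod_le_prod (fun _ _ => norm_nonneg _) fun j _ => ?_
    unfold bet
    by_cases hv : v j = 0
    · rw [if_pos hv, hv]
      simp
    · rw [if_neg hv]
      have h5 : 𝔼 a : ZMod p, psi p (-(c * v j) * a) = 0 := by
        have h6 : (psi p).mulShift (-(c * v j)) ≠ 0 := by
          intro h7
          have := (ZMod.isPrimitive_stdAddChar p) (a := -(c * v j))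
            (neg_ne_zero.2 (mul_ne_zero hc hv))
          exact this h7
        have h7 := AddChar.expect_eq_zero_iff_ne_zero.2 h6
        simpa only [AddChar.mulShift_apply] using h7
      rw [h5]
      simp
  | cons Z Zs ih =>
    intro hcard hlen c v P hc hP hPc
    simp only [List.length_cons, Nn] at hlen hP hPc ⊢
    have hZ : Z.card = k := hcard Z (List.mem_cons_self ..)
    have hd : ((Zs.length + 1 + 1 : ℕ) : ZMod p) ≠ 0 := by
      rw [Ne, ZMod.natCast_eq_zero_iff]
      exact Nat.not_dvd_of_pos_of_lt (by omega) hlen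
    have h1 : ∀ h : Inp n p, Nn Zs Z₁ (fun x => pol P x - pol P (x + restr Z h)) ≤
        ∏ j, bet p Zs.length (v j * linR k Z h j) := by
      intro h
      have h2 : (fun x => pol P x - pol P (x + restr Z h)) =
          pol (fun j : Fin k => P j - Polynomial.taylor (lin j (restr Z h)) (P j)) := by
        funext x
        exact pol_sub _ _ _
      rw [h2]
      refine ih (fun Z' hZ' => hcard Z' (List.mem_cons_of_mem _ hZ')) (by omega)
        (-((Zs.length + 1 + 1 : ℕ) : ZMod p) * c) (fun j => v j * linR k Z h j) _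
        (mul_ne_zero (neg_ne_zero.2 hd) hc) (fun j => taylor_sub_natDegree _ (hP j)) fun j => ?_
      rw [taylor_sub_coeff _ (hP j), hPc j]
      show _ = -((Zs.length + 1 + 1 : ℕ) : ZMod p) * c * (v j * lin (j : ℕ) (restr Z h))
      ring
    refine (expect_le_expect fun h _ => h1 h).trans ?_
    rw [linR_expect hZ hn (fun z => ∏ j, bet p Zs.length (v j * z j)),
      expect_prod (fun j a => bet p Zs.length (v j * a))]
    exact prod_le_prod (fun j _ => expect_nonneg fun _ _ => bet_nonneg _ _)
      fun j _ => expect_bet _ _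

/-- The explicit function. -/
def fn (r k : ℕ) (x : Inp n p) : ZMod p := ∑ j : Fin k, lin (j : ℕ) x ^ r

/-- The correlation bound. -/
lemma nof_bound {k r : ℕ} (hn : n ≤ p) (hr : r < p) (a : ZMod p) (ha : a ≠ 0)
    (l : List ((Inp n p → ℂ) × Finset (Fin n))) (hl : ∀ q ∈ l, Blind q ∧ q.2.card = k)
    (hlr : l.length = r) (hr0 : 0 < r) :
    ‖𝔼 x : Inp n p, psi p (a * fn r k x) * (l.map fun q => q.1 x).prod‖ ^ 2 ^ r ≤
      (((r - 1 : ℕ) : ℝ) / p) ^ k := by
  obtain ⟨m, rfl⟩ : ∃ m, r = m + 1 := ⟨r - 1, by omega⟩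
  obtain ⟨q, l, rfl⟩ := List.exists_cons_of_length_eq_add_one hlr
  have hlm : l.length = m := by simpa using hlr
  have hq := hl q (List.mem_cons_self ..)
  have h1 := nof_aux q.2 m l q.1 (fun x => a * fn (m + 1) k x) hlm hq.1
    fun q' h => (hl q' (List.mem_cons_of_mem _ h)).1
  have h2 : (fun x : Inp n p => a * fn (m + 1) k x) =
      pol (fun _ : Fin k => Polynomial.C a * Polynomial.X ^ (m + 1)) := by
    funext x
    unfold pol fn
    rw [mul_sum]
    refine sum_congr rfl fun j _ => ?_
    simp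
  have h3 := nn_bound hn hq.2 (l.map Prod.snd) (by
    intro Z hZ
    rw [List.mem_map] at hZ
    obtain ⟨q', h', rfl⟩ := hZ
    exact (hl q' (List.mem_cons_of_mem _ h')).2) (by rw [List.length_map, hlm]; exact hr) a
    (fun _ => 1) (fun _ : Fin k => Polynomial.C a * Polynomial.X ^ (m + 1)) ha
    (fun j => by
      rw [List.length_map, hlm]
      exact Polynomial.natDegree_C_mul_X_pow_le _ _)
    (fun j => by
      rw [List.length_map, hlm, Polynomial.coeff_C_mul_X_pow]
      simp)
  have h4 : ∏ j : Fin k, bet p (l.map Prod.snd).length (1 : ZMod p) = ((m : ℝ) / p) ^ k := by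
    rw [prod_const, card_univ, Fintype.card_fin]
    unfold bet
    rw [if_neg one_ne_zero, List.length_map, hlm]
  rw [h4] at h3
  rw [h2] at h1
  refine le_trans (le_of_eq ?_) (h1.trans h3)
  congr 2
  refine expect_congr rfl fun x _ => ?_
  simp only [List.map_cons, List.prod_cons]
  ring

end field

end Pool.Agent.W977.CQ
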