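import Mathlib

/-!
# Weights on sets, and functions of low degree of a set
-/

open Finset

namespace Pool.Agent.W977.CQ

variable {ι : Type} [Fintype ι] [DecidableEq ι]

/-- The weights: the Moebius inverse of the indicator of the sets with at least `s` elements. -/
noncomputable def wt (s : ℕ) (Y : Finset ι) : ℝ :=
  ∑ X ∈ Y.powerset, (-1) ^ (Y \ X).card * if s ≤ X.card then 1 else 0

omit [Fintype ι] in
lemma wt_eq_zero {s : ℕ} {Y : Finset ι} (h : Y.card < s) : wt s Y = 0 := by
  unfold wt
  apply sum_eq_zero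
  intro X hX
  rw [mem_powerset] at hX
  rw [if_neg, mul_zero]
  have := card_le_card hX
  omega

omit [Fintype ι] in
lemma sum_wt (s : ℕ) (Z : Finset ι) (h : s ≤ Z.card) : ∑ Y ∈ Z.powerset, wt s Y = 1 := by
  unfold wt
  have h1 : ∑ Y ∈ Z.powerset, ∑ X ∈ Y.powerset, (-1 : ℝ) ^ (Y \ X).card *
      (if s ≤ X.card then 1 else 0) =
      ∑ X ∈ Z.powerset, ∑ W ∈ (Z \ X).powerset, (-1 : ℝ) ^ W.card *
        (if s ≤ X.card then 1 else 0) := by
    rw [sum_sigma', sum_sigma']
    refine sum_bij' (fun a _ => ⟨a.2, a.1 \ a.2⟩) (fun b _ => ⟨b.1 ∪ b.2, b.1⟩) ?_ ?_ ?_ ?_ ?_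
    · rintro ⟨Y, X⟩ h
      simp only [mem_sigma, mem_powerset] at h ⊢
      exact ⟨h.2.trans h.1, sdiff_subset_sdiff h.1 (Subset.refl _)⟩
    · rintro ⟨X, W⟩ h
      simp only [mem_sigma, mem_powerset] at h ⊢
      exact ⟨union_subset h.1 (h.2.trans sdiff_subset), subset_union_left⟩
    · rintro ⟨Y, X⟩ h
      simp only [mem_sigma, mem_powerset] at h
      simp only [union_sdiff_of_subset h.2]
    · rintro ⟨X, W⟩ h
      simp only [mem_sigma, mem_powerset] at h
      have hd : Disjoint X W := by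
        rw [disjoint_left]
        intro a ha haW
        exact (mem_sdiff.1 (h.2 haW)).2 ha
      simp only [Sigma.mk.injEq, heq_eq_eq, true_and]
      rw [union_sdiff_left, sdiff_eq_self_of_disjoint hd.symm]
    · rintro ⟨Y, X⟩ h
      rfl
  rw [h1]
  have h2 : ∀ X ∈ Z.powerset, ∑ W ∈ (Z \ X).powerset, (-1 : ℝ) ^ W.card *
      (if s ≤ X.card then 1 else 0) = if X = Z then 1 else 0 := by
    intro X hX
    rw [mem_powerset] at hX
    rw [← sum_mul]
    have h3 : ∑ W ∈ (Z \ X).powerset, (-1 : ℝ) ^ W.card = if Z \ X = ∅ then 1 else 0 := by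
      have := Finset.sum_powerset_neg_one_pow_card (x := Z \ X)
      have h4 : ((∑ m ∈ (Z \ X).powerset, (-1 : ℤ) ^ m.card : ℤ) : ℝ) =
          ((if Z \ X = ∅ then 1 else 0 : ℤ) : ℝ) := by rw [this]
      push_cast at h4
      exact h4
    rw [h3]
    by_cases hXZ : X = Z
    · subst hXZ
      simp [h]
    · rw [if_neg hXZ, if_neg, zero_mul]
      intro h5
      rw [sdiff_eq_empty_iff_subset] at h5
      exact hXZ (Subset.antisymm hX h5)
  rw [sum_congr rfl h2, sum_ite_eq' , if_pos (mem_powerset_self Z)]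

lemma sum_abs_wt (s : ℕ) : ∑ Y : Finset ι, |wt s Y| ≤ 3 ^ Fintype.card ι := by
  have h1 : ∀ Y : Finset ι, |wt s Y| ≤ 2 ^ Y.card := by
    intro Y
    unfold wt
    refine (abs_sum_le_sum_abs _ _).trans ?_
    calc ∑ X ∈ Y.powerset, |(-1 : ℝ) ^ (Y \ X).card * if s ≤ X.card then 1 else 0|
        ≤ ∑ X ∈ Y.powerset, 1 := by
          refine sum_le_sum fun X _ => ?_
          rw [abs_mul, abs_pow, abs_neg, abs_one, one_pow, one_mul]
          split_ifs <;> simp
      _ = 2 ^ Y.card := by simp
  calc ∑ Y : Finset ι, |wt s Y| ≤ ∑ Y : Finset ι, (2 : ℝ) ^ Y.card := sum_le_sum fun Y _ => h1 Y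
    _ = 3 ^ Fintype.card ι := by
      have := Fintype.sum_pow_mul_eq_add_pow ι (2 : ℝ) 1
      simp only [one_pow, mul_one] at this
      rw [this]
      norm_num

/-- Functions of a finite set that are linear combinations of the indicators `[Y ∩ Q = ∅]` with
`|Q| ≤ k`. -/
def Low (k : ℕ) : Submodule ℂ (Finset ι → ℂ) :=
  Submodule.span ℂ {g | ∃ Q : Finset ι, Q.card ≤ k ∧ g = fun Y => if Disjoint Y Q then 1 else 0}

omit [Fintype ι] in
lemma Low.mul {k l : ℕ} {f g : Finset ι → ℂ} (hf : f ∈ Low k) (hg : g ∈ Low l) :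
    f * g ∈ Low (k + l) := by
  unfold Low at hf hg
  induction hf using Submodule.span_induction with
  | mem f hf =>
    obtain ⟨Q, hQ, rfl⟩ := hf
    induction hg using Submodule.span_induction with
    | mem g hg =>
      obtain ⟨Q', hQ', rfl⟩ := hg
      apply Submodule.subset_span
      refine ⟨Q ∪ Q', (card_union_le _ _).trans (by omega), ?_⟩
      funext Y
      simp only [Pi.mul_apply, disjoint_union_right]
      by_cases h1 : Disjoint Y Q <;> by_cases h2 : Disjoint Y Q' <;> simp [h1, h2]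
    | zero => rw [mul_zero]; exact Submodule.zero_mem _
    | add x y _ _ hx hy => rw [mul_add]; exact Submodule.add_mem _ hx hy
    | smul a x _ hx => rw [mul_smul_comm]; exact Submodule.smul_mem _ _ hx
  | zero => rw [zero_mul]; exact Submodule.zero_mem _
  | add x y _ _ hx hy => rw [add_mul]; exact Submodule.add_mem _ hx hy
  | smul a x _ hx => rw [smul_mul_assoc]; exact Submodule.smul_mem _ _ hx

omit [Fintype ι] in
lemma Low.const (k : ℕ) (c : ℂ) : (fun _ : Finset ι => c) ∈ Low (ι := ι) k := by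
  have : (fun _ : Finset ι => c) = c • fun Y : Finset ι => if Disjoint Y ∅ then 1 else 0 := by
    funext Y; simp
  rw [this]
  exact Submodule.smul_mem _ _ (Submodule.subset_span ⟨∅, by simp, rfl⟩)

omit [Fintype ι] in
lemma Low.mono {k l : ℕ} (h : k ≤ l) {f : Finset ι → ℂ} (hf : f ∈ Low k) : f ∈ Low l := by
  refine Submodule.span_mono ?_ hf
  rintro g ⟨Q, hQ, rfl⟩
  exact ⟨Q, hQ.trans h, rfl⟩

/-- The weighted sum of a function of low degree is its value at the empty set. -/
lemma Low.eval {k s : ℕ} (hks : k + s ≤ Fintype.card ι) {f : Finset ι → ℂ} (hf : f ∈ Low k) :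
    ∑ Y : Finset ι, (wt s Y : ℂ) * f Y = f ∅ := by
  unfold Low at hf
  induction hf using Submodule.span_induction with
  | mem f hf =>
    obtain ⟨Q, hQ, rfl⟩ := hf
    have h1 : ∑ Y : Finset ι, (wt s Y : ℂ) * (if Disjoint Y Q then 1 else 0) =
        ∑ Y ∈ Qᶜ.powerset, (wt s Y : ℂ) := by
      simp only [mul_ite, mul_one, mul_zero]
      rw [← sum_filter]
      congr 1
      ext Y
      simp only [mem_filter, mem_univ, true_and, mem_powerset]
      constructor
      · intro h
        rw [subset_iff]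
        intro a ha
        rw [mem_compl]
        exact disjoint_left.1 h ha
      · intro h
        rw [disjoint_left]
        intro a ha
        exact mem_compl.1 (h ha)
    rw [h1]
    simp only [disjoint_empty_left, if_true]
    have h2 := sum_wt s Qᶜ (by rw [card_compl]; omega)
    exact_mod_cast h2
  | zero => simp
  | add x y _ _ hx hy => simp only [Pi.add_apply, mul_add, sum_add_distrib, hx, hy]
  | smul a x _ hx =>
    simp only [Pi.smul_apply, smul_eq_mul]
    rw [← hx, mul_sum]
    exact sum_congr rfl fun Y _ => by ring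

end Pool.Agent.W977.CQ
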