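import Pool.Agent.W977.CQ.Defs
import Pool.Agent.W977.CQ.Weights
import Pool.Agent.W977.CQ.Nof

/-!
# The machines as products of transfer matrices
-/

open Finset Matrix
open scoped BigOperators ComplexConjugate

namespace Pool.Agent.W977.CQ

set_option linter.unusedSectionVars false

variable {n p : ℕ} [Fact p.Prime] {D T : ℕ} (Q : Machine n (ZMod p) D T)

/-- The transfer matrix of a step, for histories that do not read in `Y`. -/
noncomputable def stp (Y : Finset (Fin n)) (x : Inp n p) (t : ℕ) :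
    Matrix (Fin D × Fin D) (Fin D × Fin D) ℂ :=
  if h : t < T then Matrix.of fun a b =>
    if Disjoint Y ((Q.pos ⟨t, h⟩ b.1).toFinset ∪ (Q.pos ⟨t, h⟩ b.2).toFinset) then
      ∑ ν, Q.kr x ⟨t, h⟩ ν a.1 b.1 * conj (Q.kr x ⟨t, h⟩ ν a.2 b.2) else 0
  else 1

/-- The product of the transfer matrices of the steps `s, ..., s + d - 1`. -/
noncomputable def blk (Y : Finset (Fin n)) (x : Inp n p) (s : ℕ) :
    ℕ → Matrix (Fin D × Fin D) (Fin D × Fin D) ℂ
  | 0 => 1
  | d + 1 => stp Q Y x (s + d) * blk Y x s d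

lemma blk_add (Y : Finset (Fin n)) (x : Inp n p) (s d e : ℕ) :
    blk Q Y x s (d + e) = blk Q Y x (s + d) e * blk Q Y x s d := by
  induction e with
  | zero => simp [blk]
  | succ e ih =>
    rw [← Nat.add_assoc]
    show stp Q Y x (s + (d + e)) * blk Q Y x s (d + e) = stp Q Y x (s + d + e) * _ * _
    rw [ih, Matrix.mul_assoc, Nat.add_assoc]

lemma stp_low (x : Inp n p) (t : ℕ) (a b : Fin D × Fin D) :
    (fun Y => stp Q Y x t a b) ∈ Low (ι := Fin n) 2 := by
  by_cases h : t < T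
  · have : (fun Y : Finset (Fin n) => stp Q Y x t a b) =
        (∑ ν, Q.kr x ⟨t, h⟩ ν a.1 b.1 * conj (Q.kr x ⟨t, h⟩ ν a.2 b.2)) • fun Y =>
          if Disjoint Y ((Q.pos ⟨t, h⟩ b.1).toFinset ∪ (Q.pos ⟨t, h⟩ b.2).toFinset) then 1
            else 0 := by
      funext Y
      simp only [stp, dif_pos h, Matrix.of_apply, Pi.smul_apply, smul_eq_mul, mul_ite, mul_one,
        mul_zero]
    rw [this]
    refine Submodule.smul_mem _ _ (Submodule.subset_span ⟨_, ?_, rfl⟩)
    refine (card_union_le _ _).trans ?_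
    have h1 : ∀ o : Option (Fin n), o.toFinset.card ≤ 1 := by
      intro o
      cases o <;> simp
    have := h1 (Q.pos ⟨t, h⟩ b.1)
    have := h1 (Q.pos ⟨t, h⟩ b.2)
    omega
  · simp only [stp, dif_neg h]
    exact Low.const _ _

lemma blk_low (x : Inp n p) (s d : ℕ) (a b : Fin D × Fin D) :
    (fun Y => blk Q Y x s d a b) ∈ Low (ι := Fin n) (2 * d) := by
  induction d generalizing a with
  | zero => exact Low.const _ _
  | succ d ih =>
    have : (fun Y => blk Q Y x s (d + 1) a b) =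
        ∑ c, (fun Y => stp Q Y x (s + d) a c) * fun Y => blk Q Y x s d c b := by
      funext Y
      rw [Finset.sum_apply]
      rfl
    rw [this]
    refine Submodule.sum_mem _ fun c _ => ?_
    have := Low.mul (stp_low Q x (s + d) a c) (ih c)
    exact Low.mono (by omega) this

lemma kr_blind (Y : Finset (Fin n)) (x h : Inp n p) (t : Fin T) (ν : Fin Q.M) (a b : Fin D)
    (hb : Disjoint Y (Q.pos t b).toFinset) :
    Q.kr (x + restr Y h) t ν a b = Q.kr x t ν a b := by
  unfold Machine.kr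
  simp only [Matrix.of_apply]
  cases hp : Q.pos t b with
  | none => rfl
  | some i =>
    rw [hp] at hb
    have hi : i ∉ Y := by
      intro hi
      exact disjoint_left.1 hb hi (by simp)
    simp only [Option.map_some, Pi.add_apply, restr_apply, if_neg hi, add_zero]

lemma stp_blind (Y : Finset (Fin n)) (x h : Inp n p) (t : ℕ) :
    stp Q Y (x + restr Y h) t = stp Q Y x t := by
  unfold stp
  by_cases ht : t < T
  · rw [dif_pos ht, dif_pos ht]
    ext a b
    simp only [Matrix.of_apply]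
    by_cases hd : Disjoint Y ((Q.pos ⟨t, ht⟩ b.1).toFinset ∪ (Q.pos ⟨t, ht⟩ b.2).toFinset)
    · rw [if_pos hd, if_pos hd]
      rw [disjoint_union_right] at hd
      refine sum_congr rfl fun ν _ => ?_
      rw [kr_blind Q Y x h _ ν _ _ hd.1, kr_blind Q Y x h _ ν _ _ hd.2]
    · rw [if_neg hd, if_neg hd]
  · rw [dif_neg ht, dif_neg ht]

lemma blk_blind (Y : Finset (Fin n)) (x h : Inp n p) (s d : ℕ) :
    blk Q Y (x + restr Y h) s d = blk Q Y x s d := by
  induction d with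
  | zero => rfl
  | succ d ih => simp only [blk, stp_blind, ih]

/-- Transfer matrices of (trace nonincreasing) operations. -/
def Cp (Φ : Matrix (Fin D × Fin D) (Fin D × Fin D) ℂ) : Prop :=
  ∃ (ι : Type) (_ : Fintype ι) (L : ι → Matrix (Fin D) (Fin D) ℂ),
    (∀ v : Fin D → ℂ, ∑ i, ∑ r, ‖(L i *ᵥ v) r‖ ^ 2 ≤ ∑ r, ‖v r‖ ^ 2) ∧
    ∀ a b, Φ a b = ∑ i, L i a.1 b.1 * conj (L i a.2 b.2)

lemma Cp.one : Cp (1 : Matrix (Fin D × Fin D) (Fin D × Fin D) ℂ) := by
  refine ⟨Unit, inferInstance, fun _ => 1, fun v => by simp, ?_⟩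
  rintro ⟨a, a'⟩ ⟨b, b'⟩
  simp only [univ_unique, sum_singleton, Matrix.one_apply, Prod.mk.injEq]
  by_cases h1 : a = b <;> by_cases h2 : a' = b' <;> simp [h1, h2]

lemma Cp.mul {Φ Ψ : Matrix (Fin D × Fin D) (Fin D × Fin D) ℂ} (hΦ : Cp Φ) (hΨ : Cp Ψ) :
    Cp (Φ * Ψ) := by
  obtain ⟨ι, _, L, hL, hLe⟩ := hΦ
  obtain ⟨κ, _, M, hM, hMe⟩ := hΨ
  refine ⟨κ × ι, inferInstance, fun q => L q.2 * M q.1, fun v => ?_, fun a b => ?_⟩
  · rw [Fintype.sum_prod_type]
    calc ∑ k, ∑ i, ∑ r, ‖((L i * M k) *ᵥ v) r‖ ^ 2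
        = ∑ k, ∑ i, ∑ r, ‖(L i *ᵥ (M k *ᵥ v)) r‖ ^ 2 := by
          simp only [Matrix.mulVec_mulVec]
      _ ≤ ∑ k, ∑ r, ‖(M k *ᵥ v) r‖ ^ 2 := sum_le_sum fun k _ => hL _
      _ ≤ _ := hM v
  · rw [Matrix.mul_apply]
    simp only [hLe, hMe, Matrix.mul_apply, map_sum, map_mul, Fintype.sum_prod_type]
    have h1 : ∀ c c' : Fin D, (∑ i, L i a.1 c * conj (L i a.2 c')) *
        (∑ k, M k c b.1 * conj (M k c' b.2)) =
        ∑ k, ∑ i, (L i a.1 c * M k c b.1) * (conj (L i a.2 c') * conj (M k c' b.2)) := by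
      intro c c'
      rw [Finset.sum_mul_sum, sum_comm]
      refine sum_congr rfl fun k _ => sum_congr rfl fun i _ => by ring
    simp only [h1]
    have h2 : ∀ c : Fin D, ∑ c' : Fin D, ∑ k, ∑ i, (L i a.1 c * M k c b.1) *
        (conj (L i a.2 c') * conj (M k c' b.2)) = ∑ k, ∑ i, (L i a.1 c * M k c b.1) *
        ∑ c' : Fin D, (conj (L i a.2 c') * conj (M k c' b.2)) := by
      intro c
      rw [sum_comm]
      refine sum_congr rfl fun k _ => ?_
      rw [sum_comm]
      refine sum_congr rfl fun i _ => ?_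
      rw [mul_sum]
    simp only [h2]
    rw [sum_comm]
    refine sum_congr rfl fun k _ => ?_
    rw [sum_comm]
    refine sum_congr rfl fun i _ => ?_
    rw [← sum_mul]

lemma Cp.norm_le {Φ : Matrix (Fin D × Fin D) (Fin D × Fin D) ℂ} (hΦ : Cp Φ)
    (a b : Fin D × Fin D) : ‖Φ a b‖ ≤ 1 := by
  obtain ⟨ι, _, L, hL, hLe⟩ := hΦ
  have h1 : ∀ (r s : Fin D), ∑ i, ‖L i r s‖ ^ 2 ≤ 1 := by
    intro r s
    have h2 := hL (Pi.single s 1)
    have h3 : ∑ r, ‖(Pi.single s 1 : Fin D → ℂ) r‖ ^ 2 = 1 := by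
      rw [Finset.sum_eq_single s]
      · simp
      · intro b _ hb
        simp [hb]
      · simp
    rw [h3] at h2
    refine le_trans (sum_le_sum fun i _ => ?_) h2
    have h4 : (L i *ᵥ Pi.single s 1) r = L i r s := by simp
    rw [← h4]
    exact single_le_sum (f := fun r => ‖(L i *ᵥ Pi.single s 1) r‖ ^ 2)
      (fun _ _ => by positivity) (mem_univ r)
  rw [hLe]
  refine (norm_sum_le _ _).trans ?_
  calc ∑ i, ‖L i a.1 b.1 * conj (L i a.2 b.2)‖
      ≤ ∑ i, (‖L i a.1 b.1‖ ^ 2 + ‖L i a.2 b.2‖ ^ 2) / 2 := by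
        refine sum_le_sum fun i _ => ?_
        rw [norm_mul, RCLike.norm_conj]
        nlinarith [sq_nonneg (‖L i a.1 b.1‖ - ‖L i a.2 b.2‖)]
    _ = (∑ i, ‖L i a.1 b.1‖ ^ 2 + ∑ i, ‖L i a.2 b.2‖ ^ 2) / 2 := by
        rw [← sum_div, sum_add_distrib]
    _ ≤ 1 := by linarith [h1 a.1 b.1, h1 a.2 b.2]

lemma kraus_norm {M : ℕ} {L : Fin M → Matrix (Fin D) (Fin D) ℂ} (hL : ∑ ν, (L ν)ᴴ * L ν = 1)
    (v : Fin D → ℂ) : ∑ i, ∑ r, ‖(L i *ᵥ v) r‖ ^ 2 = ∑ r, ‖v r‖ ^ 2 := by
  have h1 : ∀ w : Fin D → ℂ, ((∑ r, ‖w r‖ ^ 2 : ℝ) : ℂ) = star w ⬝ᵥ w := by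
    intro w
    simp only [dotProduct, Pi.star_apply, RCLike.star_def]
    push_cast
    refine sum_congr rfl fun r _ => ?_
    rw [mul_comm, Complex.mul_conj, Complex.normSq_eq_norm_sq]
    push_cast
    rfl
  have h2 : ((∑ i, ∑ r, ‖(L i *ᵥ v) r‖ ^ 2 : ℝ) : ℂ) = ((∑ r, ‖v r‖ ^ 2 : ℝ) : ℂ) := by
    rw [h1]
    push_cast
    calc ∑ i, ∑ r, ((‖(L i *ᵥ v) r‖ : ℂ)) ^ 2 = ∑ i, star (L i *ᵥ v) ⬝ᵥ (L i *ᵥ v) := by
          refine sum_congr rfl fun i _ => ?_
          rw [← h1]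
          push_cast
          rfl
      _ = ∑ i, star v ⬝ᵥ (((L i)ᴴ * L i) *ᵥ v) := by
          refine sum_congr rfl fun i _ => ?_
          rw [Matrix.star_mulVec, ← Matrix.dotProduct_mulVec, Matrix.mulVec_mulVec]
      _ = star v ⬝ᵥ ((∑ i, (L i)ᴴ * L i) *ᵥ v) := by
          rw [Matrix.sum_mulVec, dotProduct_sum]
      _ = _ := by rw [hL, Matrix.one_mulVec]
  exact_mod_cast h2

lemma stp_cp (hQ : Q.Valid) (Y : Finset (Fin n)) (x : Inp n p) (t : ℕ) : Cp (stp Q Y x t) := by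
  unfold stp
  by_cases h : t < T
  · rw [dif_pos h]
    classical
    refine ⟨Fin Q.M, inferInstance, fun ν => Matrix.of fun r s =>
      if Disjoint Y (Q.pos ⟨t, h⟩ s).toFinset then Q.kr x ⟨t, h⟩ ν r s else 0, fun v => ?_, ?_⟩
    · have h1 : ∀ ν : Fin Q.M, (Matrix.of fun r s =>
          if Disjoint Y (Q.pos ⟨t, h⟩ s).toFinset then Q.kr x ⟨t, h⟩ ν r s else 0) *ᵥ v =
          Q.kr x ⟨t, h⟩ ν *ᵥ (fun s => if Disjoint Y (Q.pos ⟨t, h⟩ s).toFinset then v s else 0) := by
        intro ν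
        funext r
        simp only [Matrix.mulVec, dotProduct, Matrix.of_apply, ite_mul, zero_mul, mul_ite, mul_zero]
      simp only [h1]
      rw [kraus_norm (hQ.1 x ⟨t, h⟩)]
      refine sum_le_sum fun r _ => ?_
      split_ifs
      · exact le_refl _
      · simp
    · rintro ⟨a, a'⟩ ⟨b, b'⟩
      simp only [Matrix.of_apply, disjoint_union_right]
      by_cases h1 : Disjoint Y (Q.pos ⟨t, h⟩ b).toFinset <;>
        by_cases h2 : Disjoint Y (Q.pos ⟨t, h⟩ b').toFinset <;> simp [h1, h2]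
  · rw [dif_neg h]
    exact Cp.one

lemma blk_cp (hQ : Q.Valid) (Y : Finset (Fin n)) (x : Inp n p) (s d : ℕ) : Cp (blk Q Y x s d) := by
  induction d with
  | zero => exact Cp.one
  | succ d ih => exact (stp_cp Q hQ Y x _).mul ih

lemma state_eq (x : Inp n p) (t : ℕ) (a b : Fin D) :
    Q.state x t a b = blk Q ∅ x 0 t (a, b) (Q.init, Q.init) := by
  induction t generalizing a b with
  | zero =>
    simp only [Machine.state, blk, Matrix.single, Matrix.of_apply, Matrix.one_apply, Prod.mk.injEq]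
    by_cases h1 : a = Q.init <;> by_cases h2 : b = Q.init <;>
      simp [h1, h2, Ne.symm (a := a) (b := Q.init), Ne.symm (a := b) (b := Q.init), eq_comm (a := Q.init)]
  | succ t ih =>
    simp only [Machine.state, blk, zero_add]
    unfold stp
    by_cases h : t < T
    · rw [dif_pos h, dif_pos h]
      simp only [Matrix.mul_apply, Matrix.sum_apply, Matrix.of_apply, disjoint_empty_left, if_true,
        Matrix.conjTranspose_apply, RCLike.star_def, Fintype.sum_prod_type, ← ih]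
      calc ∑ ν, ∑ c', (∑ c, Q.kr x ⟨t, h⟩ ν a c * Q.state x t c c') * conj (Q.kr x ⟨t, h⟩ ν b c')
          = ∑ ν, ∑ c', ∑ c, Q.kr x ⟨t, h⟩ ν a c * Q.state x t c c' *
              conj (Q.kr x ⟨t, h⟩ ν b c') := by
            refine sum_congr rfl fun ν _ => sum_congr rfl fun c' _ => ?_
            rw [sum_mul]
        _ = ∑ c, ∑ c', ∑ ν, Q.kr x ⟨t, h⟩ ν a c * Q.state x t c c' *
              conj (Q.kr x ⟨t, h⟩ ν b c') := by
            rw [sum_congr rfl fun ν _ => sum_comm, sum_comm]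
            refine sum_congr rfl fun c _ => ?_
            rw [sum_comm]
        _ = _ := by
            refine sum_congr rfl fun c _ => sum_congr rfl fun c' _ => ?_
            rw [sum_mul]
            exact sum_congr rfl fun ν _ => by ring
    · rw [dif_neg h, dif_neg h, Matrix.one_mul]
      exact ih a b

lemma state_ge (x : Inp n p) (t : ℕ) (ht : T ≤ t) : Q.state x t = Q.state x T := by
  induction t, ht using Nat.le_induction with
  | base => rfl
  | succ t ht ih =>
    rw [← ih]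
    simp only [Machine.state]
    rw [dif_neg (by omega)]

lemma state_herm (x : Inp n p) (t : ℕ) (a b : Fin D) :
    conj (Q.state x t a b) = Q.state x t b a := by
  induction t generalizing a b with
  | zero =>
    simp only [Machine.state, Matrix.single, Matrix.of_apply]
    by_cases h1 : Q.init = a <;> by_cases h2 : Q.init = b <;> simp [h1, h2]
  | succ t ih =>
    simp only [Machine.state]
    by_cases h : t < T
    · rw [dif_pos h]
      simp only [Matrix.mul_apply, Matrix.sum_apply, Matrix.conjTranspose_apply, RCLike.star_def,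
        map_sum, map_mul, RCLike.conj_conj, ih]
      refine sum_congr rfl fun ν _ => ?_
      simp only [sum_mul]
      rw [sum_comm]
      exact sum_congr rfl fun c _ => sum_congr rfl fun c' _ => by ring
    · rw [dif_neg h]
      exact ih a b

end Pool.Agent.W977.CQ
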