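import Pool.Agent.W977.CQ.Defs
import Pool.Agent.NPC.Dec

/-!
# The explicit decision problem is in `P`
-/

namespace Pool.Agent.W977.CQ

open Pool.Agent.NPC

lemma sum_map_range (f : ℕ → ℕ) (n : ℕ) :
    ((List.range n).map f).sum = ∑ i ∈ Finset.range n, f i := by
  induction n with
  | zero => simp
  | succ n ih => rw [List.range_succ, List.map_append, List.sum_append, ih, Finset.sum_range_succ]; simp

variable {α : Type} [TEnc α]

lemma poly_pow {m n : α → ℕ} (hm : NPC.Poly m) (hn : UPoly n) : NPC.Poly (fun a => m a ^ n a) := by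
  have key : ∀ (c k s : ℕ), (fun s => c * s)^[k] s = c ^ k * s := by
    intro c k
    induction k with
    | zero => intro s; simp
    | succ k ih => intro s; rw [Function.iterate_succ_apply', ih, pow_succ]; ring
  obtain ⟨r, hr⟩ := hm.sz_le
  obtain ⟨u, hu⟩ := NPC.Poly.sz_le (f := fun a => List.replicate (n a) ()) hn
  refine (NPC.Poly.iterLen (l := fun a => List.replicate (n a) ()) (s := fun _ => 1)
    (F := fun a s => m a * s) hn (NPC.Poly.const 1)
    (NPC.Poly.mul (hm.comp (NPC.Poly.fst NPC.Poly.id)) (NPC.Poly.snd NPC.Poly.id))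
    (Polynomial.C 4 * (r * u) + Polynomial.C 5) ?_).congr fun a => ?_
  · intro a k hk
    rw [key, mul_one]
    rw [List.length_replicate] at hk
    have h1 := sz_nat_le (m a ^ k)
    have h2 : (m a ^ k).size ≤ (m a).size * k + 1 := by
      rw [Nat.size_le, pow_succ, pow_mul]
      have h3 : m a ^ k ≤ (2 ^ (m a).size) ^ k := Nat.pow_le_pow_left (Nat.lt_size_self _).le _
      have h4 : 0 < (2 ^ (m a).size) ^ k := by positivity
      omega
    have h5 := size_le_sz (m a)
    have h6 := hr a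
    have h7 := hu a
    have h8 := length_lt_sz (List.replicate (n a) ())
    rw [List.length_replicate] at h8
    have h9 : (m a).size * k ≤ r.eval (sz a) * u.eval (sz a) := Nat.mul_le_mul (by omega) (by omega)
    simp only [Polynomial.eval_add, Polynomial.eval_mul, Polynomial.eval_C]
    omega
  · rw [key, List.length_replicate, mul_one]

lemma poly_sum_range {n : α → ℕ} {f : α → ℕ → ℕ} (hn : UPoly n)
    (hf : NPC.Poly (fun q : α × ℕ => f q.1 q.2)) : NPC.Poly (fun a => ∑ i ∈ Finset.range (n a), f a i) :=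
  (NPC.Poly.sum (NPC.Poly.map (F := fun a i => f a i) hn.range hf)).congr fun a => sum_map_range _ _

/-- The decision problem is in `P`. -/
theorem powerSum_inPP : InPP PowerSum := by
  classical
  have hlen : UPoly (fun q : ℕ × ℕ × ℕ × List ℕ => q.2.2.2.length) :=
    UPoly.length (NPC.Poly.snd (NPC.Poly.snd (NPC.Poly.snd NPC.Poly.id)))
  have hr : UPoly (fun q : ℕ × ℕ × ℕ × List ℕ => min q.2.1 q.2.2.2.length) :=
    UPoly.of_le (NPC.Poly.min (NPC.Poly.fst (NPC.Poly.snd NPC.Poly.id)) hlen.toPoly) hlen fun _ => min_le_right _ _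
  have hk : UPoly (fun q : ℕ × ℕ × ℕ × List ℕ => min q.2.2.1 q.2.2.2.length) :=
    UPoly.of_le (NPC.Poly.min (NPC.Poly.fst (NPC.Poly.snd (NPC.Poly.snd NPC.Poly.id))) hlen.toPoly) hlen
      fun _ => min_le_right _ _
  have hin : NPC.Poly (fun q : (ℕ × ℕ × ℕ × List ℕ) × ℕ => ∑ i ∈ Finset.range q.1.2.2.2.length,
      i ^ (min q.2 (min q.1.2.2.1 q.1.2.2.2.length)) * q.1.2.2.2.getD i 0) := by
    refine poly_sum_range (hlen.comp (NPC.Poly.fst NPC.Poly.id)) ?_
    refine NPC.Poly.mul (poly_pow (NPC.Poly.snd NPC.Poly.id) ?_) ?_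
    · refine UPoly.of_le (n := fun q : ((ℕ × ℕ × ℕ × List ℕ) × ℕ) × ℕ =>
        min q.1.1.2.2.1 q.1.1.2.2.2.length) ?_ (hk.comp (NPC.Poly.fst (NPC.Poly.fst NPC.Poly.id)))
        fun _ => min_le_right _ _
      exact NPC.Poly.min (NPC.Poly.snd (NPC.Poly.fst NPC.Poly.id))
        (hk.toPoly.comp (NPC.Poly.fst (NPC.Poly.fst NPC.Poly.id)))
    · exact NPC.Poly.getD (NPC.Poly.snd (NPC.Poly.snd (NPC.Poly.snd (NPC.Poly.fst (NPC.Poly.fst NPC.Poly.id)))))
        (NPC.Poly.snd NPC.Poly.id) (NPC.Poly.const 0)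
  have hsum : NPC.Poly (fun q : ℕ × ℕ × ℕ × List ℕ =>
      ∑ j ∈ Finset.range (min q.2.2.1 q.2.2.2.length), (∑ i ∈ Finset.range q.2.2.2.length,
        i ^ (min j (min q.2.2.1 q.2.2.2.length)) * q.2.2.2.getD i 0) ^
          (min q.2.1 q.2.2.2.length)) := by
    refine poly_sum_range hk ?_
    exact poly_pow hin (hr.comp (NPC.Poly.fst NPC.Poly.id))
  refine inPP_of (d := fun q => decide (q.2.1 ≤ q.2.2.2.length ∧ (q.2.2.1 ≤ q.2.2.2.length ∧
    (∑ j ∈ Finset.range (min q.2.2.1 q.2.2.2.length), (∑ i ∈ Finset.range q.2.2.2.length,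
        i ^ (min j (min q.2.2.1 q.2.2.2.length)) * q.2.2.2.getD i 0) ^
          (min q.2.1 q.2.2.2.length)) % q.1 = 0))) ?_ ?_
  · refine NPC.Poly.decide_and (NPC.Poly.decide_le (NPC.Poly.fst (NPC.Poly.snd NPC.Poly.id)) hlen.toPoly) ?_
    refine NPC.Poly.decide_and (NPC.Poly.decide_le (NPC.Poly.fst (NPC.Poly.snd (NPC.Poly.snd NPC.Poly.id))) hlen.toPoly) ?_
    exact NPC.Poly.decide_eq (NPC.Poly.mod hsum (NPC.Poly.fst NPC.Poly.id)) (NPC.Poly.const 0)
  · rintro ⟨p, r, k, l⟩
    simp only [PowerSum, decide_eq_true_eq]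
    refine and_congr_right fun h1 => and_congr_right fun h2 => ?_
    rw [min_eq_left h1, min_eq_left h2, ← Nat.dvd_iff_mod_eq_zero]
    have : ∀ j ∈ Finset.range k, (∑ i ∈ Finset.range l.length, i ^ j * l.getD i 0) ^ r =
        (∑ i ∈ Finset.range l.length, i ^ (min j k) * l.getD i 0) ^ r := by
      intro j hj
      rw [min_eq_left (Finset.mem_range.1 hj).le]
    rw [Finset.sum_congr rfl this]

end Pool.Agent.W977.CQ
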